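import Pool.Agent.H.MP_bb4c62_an.helper6.NDefs
namespace Pool.Agent.H.MP_bb4c62_an.helper6.NL
open Complex Metric Set Filter Topology
open Pool.Agent.H.MP_bb4c62_an.helper6.Perturb
open Pool.Agent.H.MP_bb4c62_an.helper6.Gadgets

section NLester
variable {V : Type*} [AddCommGroup V] [Module ℂ V]

/-- two linear conditions have a common nonzero solution in dimension three -/
theorem lester_perp1 (B : V →ₗ[ℂ] V →ₗ[ℂ] ℂ) (h3 : Module.finrank ℂ V = 3) (y₁ y₂ : V) :
    ∃ x : V, x ≠ 0 ∧ B x y₁ = 0 ∧ B x y₂ = 0 := by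
  have : FiniteDimensional ℂ V := .of_finrank_pos (by omega)
  let φ : V →ₗ[ℂ] ℂ × ℂ := LinearMap.prod (B.flip y₁) (B.flip y₂)
  have hk : LinearMap.ker φ ≠ ⊥ := by
    apply LinearMap.ker_ne_bot_of_finrank_lt
    rw [h3, Module.finrank_prod, Module.finrank_self]
    norm_num
  obtain ⟨x, hx, hx0⟩ := (Submodule.ne_bot_iff _).mp hk
  have h1 : φ x = 0 := hx
  refine ⟨x, hx0, ?_, ?_⟩
  · exact congrArg Prod.fst h1
  · exact congrArg Prod.snd h1

/-- two independent linear conditions have a one dimensional set of solutions -/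
theorem lester_perp2 (B : V →ₗ[ℂ] V →ₗ[ℂ] ℂ) (hs : ∀ x y, B x y = B y x)
    (h3 : Module.finrank ℂ V = 3) (hn : ∀ x, (∀ y, B x y = 0) → x = 0) {y₁ y₂ : V}
    (hi : ∀ a b : ℂ, a • y₁ + b • y₂ = 0 → a = 0 ∧ b = 0) {x x' : V} (hx0 : x ≠ 0)
    (h1 : B x y₁ = 0) (h2 : B x y₂ = 0) (h1' : B x' y₁ = 0) (h2' : B x' y₂ = 0) :
    ∃ c : ℂ, x' = c • x := by
  have : FiniteDimensional ℂ V := .of_finrank_pos (by omega)
  let φ : V →ₗ[ℂ] ℂ × ℂ := LinearMap.prod (B.flip y₁) (B.flip y₂)
  by_contra hcon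
  push Not at hcon
  -- `x, x'` are independent elements of the kernel
  have hind : LinearIndependent ℂ ![x, x'] := by
    rw [LinearIndependent.pair_iff' hx0]
    intro a ha
    exact hcon a ha.symm
  have hker : ∀ i, ![x, x'] i ∈ LinearMap.ker φ := by
    intro i
    fin_cases i
    · exact Prod.ext h1 h2
    · exact Prod.ext h1' h2'
  let v : Fin 2 → LinearMap.ker φ := fun i => ⟨_, hker i⟩
  have hv : LinearIndependent ℂ v := by
    apply LinearIndependent.of_comp (LinearMap.ker φ).subtype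
    exact hind
  have h4 : 2 ≤ Module.finrank ℂ (LinearMap.ker φ) := by
    simpa using hv.fintype_card_le_finrank
  have h5 := LinearMap.finrank_range_add_finrank_ker φ
  have h6 : LinearMap.range φ < ⊤ := by
    rw [lt_top_iff_ne_top]
    intro htop
    rw [htop, finrank_top, Module.finrank_prod, Module.finrank_self, h3] at h5
    omega
  obtain ⟨f, hf0, hf⟩ := Submodule.exists_le_ker_of_lt_top _ h6
  have hf' : ∀ s t : ℂ, f (s, t) = s * f (1, 0) + t * f (0, 1) := by
    intro s t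
    have : (s, t) = s • ((1 : ℂ), (0 : ℂ)) + t • ((0 : ℂ), (1 : ℂ)) := by
      simp
    rw [this, map_add, map_smul, map_smul]
    rfl
  have h7 : f (1, 0) • y₁ + f (0, 1) • y₂ = 0 := by
    apply hn
    intro z
    have h8 : f (φ z) = 0 := hf ⟨z, rfl⟩
    have h9 : φ z = (B z y₁, B z y₂) := rfl
    rw [h9, hf'] at h8
    rw [hs, map_add, map_smul, map_smul, smul_eq_mul, smul_eq_mul]
    linear_combination h8
  obtain ⟨h8, h9⟩ := hi _ _ h7
  apply hf0
  ext
  · simpa using h8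
  · simpa using h9

theorem lester_q_add (B : V →ₗ[ℂ] V →ₗ[ℂ] ℂ) (hs : ∀ x y, B x y = B y x) (x a : V) (t : ℂ) :
    B (x - t • a) (x - t • a) = B x x - 2 * t * B x a + t ^ 2 * B a a := by
  simp only [map_sub, map_smul, LinearMap.sub_apply, LinearMap.smul_apply, smul_eq_mul]
  rw [hs a x]
  ring

/-- totally isotropic subspaces are lines -/
theorem lester_iso (B : V →ₗ[ℂ] V →ₗ[ℂ] ℂ) (hs : ∀ x y, B x y = B y x)
    (h3 : Module.finrank ℂ V = 3) (hn : ∀ x, (∀ y, B x y = 0) → x = 0) {a b : V}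
    (ha0 : a ≠ 0) (ha : B a a = 0) (hb : B b b = 0) (hab : B a b = 0) : ∃ c : ℂ, b = c • a := by
  by_contra hcon
  push Not at hcon
  have hi : ∀ s t : ℂ, s • a + t • b = 0 → s = 0 ∧ t = 0 := by
    intro s t hst
    have ht : t = 0 := by
      by_contra ht
      apply hcon (-(t⁻¹ * s))
      have h1 : b = t⁻¹ • (t • b) := by rw [smul_smul, inv_mul_cancel₀ ht, one_smul]
      have h2 : t • b = -(s • a) := by rw [eq_neg_iff_add_eq_zero, add_comm]; exact hst
      rw [h1, h2, smul_neg, smul_smul, neg_smul]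
    refine ⟨?_, ht⟩
    rw [ht, zero_smul, add_zero] at hst
    exact (smul_eq_zero.mp hst).resolve_right ha0
  obtain ⟨c, hc⟩ := lester_perp2 B hs h3 hn hi ha0 ha hab (x' := b) (by rw [hs]; exact hab) hb
  exact hcon c hc

/-- isotropic vectors in the orthogonal complement of a nonisotropic vector -/
theorem lester_frame (B : V →ₗ[ℂ] V →ₗ[ℂ] ℂ) (hs : ∀ x y, B x y = B y x)
    (h3 : Module.finrank ℂ V = 3) (hn : ∀ x, (∀ y, B x y = 0) → x = 0) {v : V}
    (hv : B v v ≠ 0) : ∃ a b : V, B a a = 0 ∧ B b b = 0 ∧ B a b ≠ 0 ∧ B v a = 0 ∧ B v b = 0 := by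
  have hstep : ∃ a : V, a ≠ 0 ∧ B a a = 0 ∧ B a v = 0 := by
    obtain ⟨x₁, hx₁, h1, -⟩ := lester_perp1 B h3 v v
    by_cases hq : B x₁ x₁ = 0
    · exact ⟨x₁, hx₁, hq, h1⟩
    obtain ⟨x₂, hx₂, h2, h2'⟩ := lester_perp1 B h3 v x₁
    obtain ⟨l, hl⟩ : ∃ l : ℂ, l ^ 2 = -(B x₂ x₂) / B x₁ x₁ :=
      IsAlgClosed.exists_pow_nat_eq _ (by norm_num)
    refine ⟨x₂ - l • x₁, ?_, ?_, ?_⟩
    · intro h0
      have h5 : x₂ = l • x₁ := sub_eq_zero.mp h0
      rw [h5, map_smul, LinearMap.smul_apply, smul_eq_mul] at h2'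
      have h6 : l = 0 := (mul_eq_zero.mp h2').resolve_right hq
      apply hx₂
      rw [h5, h6, zero_smul]
    · rw [lester_q_add B hs, h2', hl]
      field_simp
      ring
    · rw [map_sub, map_smul, LinearMap.sub_apply, LinearMap.smul_apply, h1, h2]
      simp
  obtain ⟨a, ha0, ha, hav⟩ := hstep
  obtain ⟨z, hz⟩ : ∃ z, B a z ≠ 0 := by
    by_contra hcon
    push Not at hcon
    exact ha0 (hn a hcon)
  have hva : B v a = 0 := by rw [hs]; exact hav
  set z' := z - (B z v / B v v) • v with hz'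
  have h1 : B z' v = 0 := by
    rw [hz', map_sub, map_smul, LinearMap.sub_apply, LinearMap.smul_apply, smul_eq_mul]
    field_simp
    ring
  have h2 : B z' a = B a z := by
    rw [hz', map_sub, map_smul, LinearMap.sub_apply, LinearMap.smul_apply, smul_eq_mul, hva, hs z a]
    ring
  have h2' : B z' a ≠ 0 := by rw [h2]; exact hz
  refine ⟨a, z' - (B z' z' / (2 * B z' a)) • a, ha, ?_, ?_, hva, ?_⟩
  · rw [lester_q_add B hs, ha]
    field_simp
    ring
  · rw [map_sub, map_smul, ha, hs a z']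
    simpa using h2'
  · rw [map_sub, map_smul, hva, hs v z', h1]
    simp

theorem lester_line (B : V →ₗ[ℂ] V →ₗ[ℂ] ℂ) (hs : ∀ x y, B x y = B y x)
    (h3 : Module.finrank ℂ V = 3) (hn : ∀ x, (∀ y, B x y = 0) → x = 0) {a : V}
    (ha0 : a ≠ 0) (ha : B a a = 0) (x z : V) :
    (∃ t : ℂ, z = x + t • a) ↔ (B (z - x) (z - x) = 0 ∧ B (z - (x + a)) (z - (x + a)) = 0) := by
  have h1 : B (z - (x + a)) (z - (x + a)) = B (z - x) (z - x) - 2 * B (z - x) a := by
    have := lester_q_add B hs (z - x) a 1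
    rw [one_smul, ha] at this
    rw [← sub_sub, this]
    ring
  constructor
  · rintro ⟨t, rfl⟩
    rw [h1]
    have h2 : x + t • a - x = t • a := by abel
    rw [h2]
    simp [ha]
  · rintro ⟨h2, h4⟩
    rw [h1, h2] at h4
    have h5 : B a (z - x) = 0 := by
      rw [hs]; linear_combination (-1 / 2 : ℂ) * h4
    obtain ⟨c, hc⟩ := lester_iso B hs h3 hn ha0 ha h2 h5
    exact ⟨c, by rw [← hc]; abel⟩

theorem lester_plane (B : V →ₗ[ℂ] V →ₗ[ℂ] ℂ) (hs : ∀ x y, B x y = B y x)
    (h3 : Module.finrank ℂ V = 3) (hn : ∀ x, (∀ y, B x y = 0) → x = 0) {a : V}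
    (ha0 : a ≠ 0) (ha : B a a = 0) (x y : V) :
    B (y - x) a = 0 ↔ ((∃ t : ℂ, y = x + t • a) ∨
      ∀ z, (∃ t : ℂ, z = x + t • a) → B (y - z) (y - z) ≠ 0) := by
  have h1 : ∀ t : ℂ, B (y - (x + t • a)) (y - (x + t • a)) =
      B (y - x) (y - x) - 2 * t * B (y - x) a := by
    intro t
    rw [← sub_sub, lester_q_add B hs, ha]
    ring
  constructor
  · intro h
    by_cases hq : B (y - x) (y - x) = 0
    · left
      obtain ⟨c, hc⟩ := lester_iso B hs h3 hn ha0 ha hq (by rw [hs]; exact h)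
      exact ⟨c, by rw [← hc]; abel⟩
    · right
      rintro _ ⟨t, rfl⟩
      rw [h1, h]
      simpa using hq
  · rintro (⟨t, rfl⟩ | h)
    · have h2 : x + t • a - x = t • a := by abel
      rw [h2]
      simp [ha]
    · by_contra hcon
      apply h (x + (B (y - x) (y - x) / (2 * B (y - x) a)) • a) ⟨_, rfl⟩
      rw [h1]
      field_simp
      ring

end NLester

theorem lester3 {V W : Type*} [AddCommGroup V] [Module ℂ V] [AddCommGroup W] [Module ℂ W]
    (BV : V →ₗ[ℂ] V →ₗ[ℂ] ℂ) (BW : W →ₗ[ℂ] W →ₗ[ℂ] ℂ)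
    (hVs : ∀ x y, BV x y = BV y x) (hWs : ∀ x y, BW x y = BW y x)
    (hV3 : Module.finrank ℂ V = 3) (hW3 : Module.finrank ℂ W = 3)
    (hVn : ∀ x, (∀ y, BV x y = 0) → x = 0) (hWn : ∀ x, (∀ y, BW x y = 0) → x = 0)
    (α : V → W) (hα : Function.Bijective α)
    (h : ∀ x y, BW (α x - α y) (α x - α y) = 0 ↔ BV (x - y) (x - y) = 0)
    (u v : V) (hv : v ≠ 0) :
    ∃ w : W, w ≠ 0 ∧
      Set.range (fun t : ℂ => α (u + t • v)) = Set.range (fun s : ℂ => α u + s • w) := by
  -- images of isotropic vectors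
  have himg : ∀ x a : V, a ≠ 0 → BV a a = 0 → α (x + a) - α x ≠ 0 ∧
      BW (α (x + a) - α x) (α (x + a) - α x) = 0 := by
    intro x a ha0 ha
    constructor
    · intro h0
      have := hα.1 (sub_eq_zero.mp h0)
      apply ha0
      simpa using this
    · rw [h]
      simpa using ha
  -- isotropic lines
  have hline : ∀ x a : V, a ≠ 0 → BV a a = 0 → ∀ z, (∃ t : ℂ, z = x + t • a) ↔
      ∃ s : ℂ, α z = α x + s • (α (x + a) - α x) := by
    intro x a ha0 ha z
    obtain ⟨h1, h2⟩ := himg x a ha0 ha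
    rw [lester_line BV hVs hV3 hVn ha0 ha, lester_line BW hWs hW3 hWn h1 h2, ← h, ← h]
    have h5 : α x + (α (x + a) - α x) = α (x + a) := by abel
    rw [h5]
  -- planes
  have hplane : ∀ x a : V, a ≠ 0 → BV a a = 0 → ∀ y, BV (y - x) a = 0 ↔
      BW (α y - α x) (α (x + a) - α x) = 0 := by
    intro x a ha0 ha y
    obtain ⟨h1, h2⟩ := himg x a ha0 ha
    rw [lester_plane BV hVs hV3 hVn ha0 ha, lester_plane BW hWs hW3 hWn h1 h2, hline x a ha0 ha]
    apply or_congr Iff.rfl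
    constructor
    · intro h5 z hz
      obtain ⟨z', rfl⟩ := hα.2 z
      rw [Ne, h]
      exact h5 z' ((hline x a ha0 ha z').mpr hz)
    · intro h5 z hz
      rw [Ne, ← h]
      exact h5 (α z) ((hline x a ha0 ha z).mp hz)
  by_cases hq : BV v v = 0
  · obtain ⟨h1, h2⟩ := himg u v hv hq
    refine ⟨_, h1, ?_⟩
    ext z
    constructor
    · rintro ⟨t, rfl⟩
      obtain ⟨s, hs⟩ := (hline u v hv hq (u + t • v)).mp ⟨t, rfl⟩
      exact ⟨s, hs.symm⟩
    · rintro ⟨s, rfl⟩
      obtain ⟨z', hz'⟩ := hα.2 (α u + s • (α (u + v) - α u))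
      obtain ⟨t, ht⟩ := (hline u v hv hq z').mpr ⟨s, hz'⟩
      exact ⟨t, by
        show α (u + t • v) = α u + s • (α (u + v) - α u)
        rw [← ht, hz']⟩
  · obtain ⟨a, b, ha, hb, hab, hva, hvb⟩ := lester_frame BV hVs hV3 hVn hq
    have ha0 : a ≠ 0 := by
      rintro rfl
      simp at hab
    have hb0 : b ≠ 0 := by
      rintro rfl
      simp at hab
    have hi : ∀ s t : ℂ, s • a + t • b = 0 → s = 0 ∧ t = 0 := by
      intro s t hst
      constructor
      · have h5 : BV (s • a + t • b) b = 0 := by rw [hst]; simp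
        simp only [map_add, map_smul, LinearMap.add_apply, LinearMap.smul_apply, smul_eq_mul,
          hb, mul_zero, add_zero] at h5
        exact (mul_eq_zero.mp h5).resolve_right hab
      · have h5 : BV a (s • a + t • b) = 0 := by rw [hst]; simp
        simp only [map_add, map_smul, smul_eq_mul, ha, mul_zero, zero_add] at h5
        exact (mul_eq_zero.mp h5).resolve_right hab
    obtain ⟨ha'0, ha'⟩ := himg u a ha0 ha
    obtain ⟨hb'0, hb'⟩ := himg u b hb0 hb
    set a' := α (u + a) - α u with ha'def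
    set b' := α (u + b) - α u with hb'def
    have hi' : ∀ s t : ℂ, s • a' + t • b' = 0 → s = 0 ∧ t = 0 := by
      intro s t hst
      have ht : t = 0 := by
        by_contra ht
        -- `b'` is a multiple of `a'`
        have h5 : ∀ y, BV (y - u) a = 0 → BV (y - u) b = 0 := by
          intro y hy
          rw [hplane u a ha0 ha y] at hy
          rw [hplane u b hb0 hb y]
          have h6 : BW (α y - α u) (s • a' + t • b') = 0 := by rw [hst]; simp
          rw [map_add, map_smul, map_smul, hy, smul_zero, zero_add, smul_eq_mul] at h6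
          exact (mul_eq_zero.mp h6).resolve_left ht
        have h6 := h5 (u + a) (by simpa using ha)
        apply hab
        simpa using h6
      refine ⟨?_, ht⟩
      rw [ht, zero_smul, add_zero] at hst
      exact (smul_eq_zero.mp hst).resolve_right ha'0
    obtain ⟨w, hw0, hwa, hwb⟩ := lester_perp1 BW hW3 a' b'
    refine ⟨w, hw0, ?_⟩
    have hmem : ∀ y, (∃ t : ℂ, y = u + t • v) ↔ ∃ s : ℂ, α y = α u + s • w := by
      intro y
      have e1 : (∃ t : ℂ, y = u + t • v) ↔ (BV (y - u) a = 0 ∧ BV (y - u) b = 0) := by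
        constructor
        · rintro ⟨t, rfl⟩
          have h5 : u + t • v - u = t • v := by abel
          rw [h5]
          simp [hva, hvb]
        · rintro ⟨h5, h6⟩
          obtain ⟨c, hc⟩ := lester_perp2 BV hVs hV3 hVn hi hv hva hvb h5 h6
          exact ⟨c, by rw [← hc]; abel⟩
      have e2 : (∃ s : ℂ, α y = α u + s • w) ↔ (BW (α y - α u) a' = 0 ∧ BW (α y - α u) b' = 0) := by
        constructor
        · rintro ⟨t, ht⟩
          have h5 : α y - α u = t • w := by rw [ht]; abel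
          rw [h5]
          simp [hwa, hwb]
        · rintro ⟨h5, h6⟩
          obtain ⟨c, hc⟩ := lester_perp2 BW hWs hW3 hWn hi' hw0 hwa hwb h5 h6
          exact ⟨c, by rw [← hc]; abel⟩
      rw [e1, e2, hplane u a ha0 ha y, hplane u b hb0 hb y]
    ext z
    constructor
    · rintro ⟨t, rfl⟩
      obtain ⟨s, hs⟩ := (hmem (u + t • v)).mp ⟨t, rfl⟩
      exact ⟨s, hs.symm⟩
    · rintro ⟨s, rfl⟩
      obtain ⟨z', hz'⟩ := hα.2 (α u + s • w)
      obtain ⟨t, ht⟩ := (hmem z').mpr ⟨s, hz'⟩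
      exact ⟨t, by
        show α (u + t • v) = α u + s • w
        rw [← ht, hz']⟩

end Pool.Agent.H.MP_bb4c62_an.helper6.NL
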