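import Pool.Agent.H.MP_bb4c62_an.helper5.PDefs

/-!
Basic facts on quasi-lines, plus-lines and plus-maps.
-/

namespace Pool.Agent.H.MP_bb4c62_an.helper5.PL

open Pool.Agent.H.MP_bb4c62_an.helper6.NL
open Pool.Agent.H.MP_bb4c62_an.helper6.Perturb
open Pool.Agent.H.MP_bb4c62_an.helper6.Gadgets

variable {X : Type*} [NormedAddCommGroup X] [NormedSpace ℂ X]
variable {Y : Type*} [NormedAddCommGroup Y] [NormedSpace ℂ Y]

theorem isPair_of_gIso {φ : (X →L[ℂ] X) → (Y →L[ℂ] Y)} (h : IsGIso φ) : IsPair φ φ :=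
  ⟨h.1, h.1, h.2⟩

/-- images of quasi-lines under pairs -/
theorem IsQLine.image {φ ψ : (X →L[ℂ] X) → (Y →L[ℂ] Y)} (h : IsPair φ ψ)
    {m : Set (X →L[ℂ] X)} (hm : IsQLine m) : IsQLine (φ '' m) where
  inf := hm.inf.image h.bij.1.injOn
  gen := by
    rintro T _ _ _ ⟨a, ha, rfl⟩ ⟨b, hb, rfl⟩ ⟨c, hc, rfl⟩ hab hac hbc h1 h2 h3 _ ⟨s, hs, rfl⟩
    obtain ⟨T, rfl⟩ := h.bij'.2 T
    rw [qn_sub_comm, h.qn, qn_sub_comm] at h1 h2 h3 ⊢
    exact hm.gen T a b c ha hb hc (fun h => hab (by rw [h])) (fun h => hac (by rw [h]))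
      (fun h => hbc (by rw [h])) h1 h2 h3 s hs
  closed := by
    intro V hV
    obtain ⟨V, rfl⟩ := h.bij.2 V
    refine ⟨V, hm.closed V ?_, rfl⟩
    intro T hT
    rw [← h.qn]
    apply hV
    rintro _ ⟨s, hs, rfl⟩
    rw [qn_sub_comm, h.qn, qn_sub_comm]
    exact hT s hs

theorem p1_subset {m m' : Set (X →L[ℂ] X)} (hm : IsQLine m) (hm' : IsQLine m')
    {a b c : X →L[ℂ] X} (ha : a ∈ m) (hb : b ∈ m) (hc : c ∈ m) (ha' : a ∈ m') (hb' : b ∈ m')
    (hc' : c ∈ m') (hab : a ≠ b) (hac : a ≠ c) (hbc : b ≠ c) : m ⊆ m' := by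
  intro s hs
  apply hm'.closed
  intro T hT
  rw [qn_sub_comm]
  exact hm.gen T a b c ha hb hc hab hac hbc (hT a ha') (hT b hb') (hT c hc') s hs

theorem IsQLine.eq_of_three {m m' : Set (X →L[ℂ] X)} (hm : IsQLine m) (hm' : IsQLine m')
    {a b c : X →L[ℂ] X} (ha : a ∈ m) (hb : b ∈ m) (hc : c ∈ m) (ha' : a ∈ m') (hb' : b ∈ m')
    (hc' : c ∈ m') (hab : a ≠ b) (hac : a ≠ c) (hbc : b ≠ c) : m = m' :=
  Set.Subset.antisymm (p1_subset hm hm' ha hb hc ha' hb' hc' hab hac hbc)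
    (p1_subset hm' hm ha' hb' hc' ha hb hc hab hac hbc)

theorem IsLine.qline {m : Set (X →L[ℂ] X)} (hm : IsLine m) : IsQLine m :=
  ⟨hm.inf, hm.gen, hm.closed⟩

theorem IsPLine.qn {m : Set (X →L[ℂ] X)} (hm : IsPLine m) {w : X →L[ℂ] X} (hw : w ∈ m) :
    QN w := by
  have := hm.plus w hw 0 hm.zero
  rwa [add_zero] at this

theorem p1_two {S : X →L[ℂ] X} : QN (S + S) ↔ QN S := by
  have e : S + S = (2 : ℂ) • S := (two_smul ℂ S).symm
  rw [e]
  exact qn_smul_iff two_ne_zero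

theorem IsPlus.zero {φ : (X →L[ℂ] X) → (Y →L[ℂ] Y)} (h : IsPlus φ) : φ 0 = 0 := by
  apply eq_zero_of_translates
  intro N hN
  obtain ⟨S, rfl⟩ := h.bij.2 N
  refine (h.qn 0 S).mpr ?_
  rw [zero_add]
  have h1 : QN (φ S + φ S) := p1_two.mpr hN
  exact p1_two.mp ((h.qn S S).mp h1)

theorem IsPlus.exists_inv {φ : (X →L[ℂ] X) → (Y →L[ℂ] Y)} (h : IsPlus φ) :
    ∃ ψ : (Y →L[ℂ] Y) → (X →L[ℂ] X), IsPlus ψ ∧ (∀ T, ψ (φ T) = T) ∧ (∀ U, φ (ψ U) = U) := by
  obtain ⟨e, he⟩ : ∃ e : (X →L[ℂ] X) ≃ (Y →L[ℂ] Y), ∀ T, e T = φ T :=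
    ⟨Equiv.ofBijective φ h.bij, fun _ => rfl⟩
  refine ⟨e.symm, ⟨e.symm.bijective, fun T S => ?_⟩,
    fun T => by rw [← he, e.symm_apply_apply], fun U => by rw [← he, e.apply_symm_apply]⟩
  rw [← h.qn, ← he, ← he, e.apply_symm_apply, e.apply_symm_apply]

theorem IsPlus.pair {φ : (X →L[ℂ] X) → (Y →L[ℂ] Y)} (h : IsPlus φ) :
    IsPair φ (fun S => -φ (-S)) := by
  refine ⟨h.bij, ⟨?_, ?_⟩, ?_⟩
  · intro a b hab
    exact neg_injective (h.bij.1 (neg_injective hab))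
  · intro U
    obtain ⟨S, hS⟩ := h.bij.2 (-U)
    exact ⟨-S, by show -φ (- -S) = U; rw [neg_neg, hS, neg_neg]⟩
  · intro T S
    show QN (φ T - -φ (-S)) ↔ QN (T - S)
    rw [sub_neg_eq_add, h.qn, ← sub_eq_add_neg]

theorem IsPLine.image_plus {φ : (X →L[ℂ] X) → (Y →L[ℂ] Y)} (h : IsPlus φ)
    {m : Set (X →L[ℂ] X)} (hm : IsPLine m) : IsPLine (φ '' m) where
  qline := hm.qline.image h.pair
  zero := ⟨0, hm.zero, h.zero⟩
  plus := by
    rintro _ ⟨s, hs, rfl⟩ _ ⟨t, ht, rfl⟩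
    exact (h.qn s t).mpr (hm.plus s hs t ht)

theorem p1_three {m : Set (X →L[ℂ] X)} (hm : m.Infinite) (b : X →L[ℂ] X) :
    ∃ d e f, d ∈ m ∧ e ∈ m ∧ f ∈ m ∧ d ≠ e ∧ d ≠ f ∧ e ≠ f ∧ d ≠ 0 ∧ e ≠ 0 ∧ f ≠ 0 ∧
      d ≠ b ∧ e ≠ b ∧ f ≠ b := by
  classical
  have h1 : (m \ {0, b}).Infinite := hm.sdiff (Set.toFinite _)
  obtain ⟨t, ht, ht3⟩ := h1.exists_subset_card_eq 3
  obtain ⟨d, e, f, hde, hdf, hef, rfl⟩ := Finset.card_eq_three.mp ht3
  have hd := ht (show d ∈ ((({d, e, f} : Finset (X →L[ℂ] X))) : Set (X →L[ℂ] X)) by simp)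
  have he := ht (show e ∈ ((({d, e, f} : Finset (X →L[ℂ] X))) : Set (X →L[ℂ] X)) by simp)
  have hf := ht (show f ∈ ((({d, e, f} : Finset (X →L[ℂ] X))) : Set (X →L[ℂ] X)) by simp)
  simp only [Set.mem_sdiff, Set.mem_insert_iff, Set.mem_singleton_iff, not_or] at hd he hf
  exact ⟨d, e, f, hd.1, he.1, hf.1, hde, hdf, hef, hd.2.1, he.2.1, hf.2.1, hd.2.2, he.2.2,
    hf.2.2⟩

/-- step (1) -/
theorem p1_step {m : Set (X →L[ℂ] X)} (hm : IsPLine m) {b c d : X →L[ℂ] X}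
    (hb : b ∈ m) (hc : c ∈ m) (hd : d ∈ m) (hb0 : b ≠ 0) (hc0 : c ≠ 0) (hbc : b ≠ c) :
    QN (b + c - d) := by
  refine hm.qline.gen (b + c) 0 b c hm.zero hb hc hb0.symm hc0.symm hbc ?_ ?_ ?_ d hd
  · rw [sub_zero]; exact hm.plus b hb c hc
  · rw [add_sub_cancel_left]; exact hm.qn hc
  · rw [add_sub_cancel_right]; exact hm.qn hb

/-- step (2) -/
theorem p1_step2 {m : Set (X →L[ℂ] X)} (hm : IsPLine m) {b c s : X →L[ℂ] X}
    (hb : b ∈ m) (hc : c ∈ m) (hs : s ∈ m) (hb0 : b ≠ 0) : QN (b + s - c) := by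
  obtain ⟨d, e, f, hd, he, hf, hde, hdf, hef, hd0, he0, hf0, hdb, heb, hfb⟩ :=
    p1_three hm.qline.inf b
  have key : ∀ u ∈ m, u ≠ 0 → u ≠ b → QN (c - b - u) := by
    intro u hu hu0 hub
    have h1 := p1_step hm hb hu hc hb0 hu0 hub.symm
    have e1 : c - b - u = -(b + u - c) := by abel
    rw [e1]
    exact qn_neg h1
  have h2 := hm.qline.gen (c - b) d e f hd he hf hde hdf hef (key d hd hd0 hdb)
    (key e he he0 heb) (key f hf hf0 hfb) s hs
  have e2 : b + s - c = -(c - b - s) := by abel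
  rw [e2]
  exact qn_neg h2

/-- the sum rule in a plus-line -/
theorem IsPLine.add_sub {m : Set (X →L[ℂ] X)} (hm : IsPLine m) {a b c : X →L[ℂ] X}
    (ha : a ∈ m) (hb : b ∈ m) (hc : c ∈ m) : QN (a + b - c) := by
  by_cases ha0 : a = 0
  · by_cases hb0 : b = 0
    · rw [ha0, hb0, add_zero, zero_sub]
      exact qn_neg (hm.qn hc)
    · rw [add_comm]
      exact p1_step2 hm hb hc ha hb0
  · exact p1_step2 hm ha hc hb ha0

/-- plus-lines are lines -/
theorem IsPLine.isLine {m : Set (X →L[ℂ] X)} (hm : IsPLine m) : IsLine m where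
  inf := hm.qline.inf
  clique := by
    intro S hS T hT
    have := hm.add_sub hS hm.zero hT
    rwa [add_zero] at this
  gen := hm.qline.gen
  closed := hm.qline.closed

/-- reflections of plus-lines -/
theorem IsPLine.refl {m : Set (X →L[ℂ] X)} (hm : IsPLine m) {a : X →L[ℂ] X} (ha : a ∈ m) :
    IsPLine ((fun T => a - T) '' m) where
  qline := hm.qline.image (isPair_of_gIso (isGIso_refl a))
  zero := ⟨a, ha, sub_self a⟩
  plus := by
    rintro _ ⟨s, hs, rfl⟩ _ ⟨t, ht, rfl⟩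
    show QN ((a - s) + (a - t))
    have hcl := hm.isLine.clique
    by_cases ha0 : a = 0
    · have e : (a - s) + (a - t) = -(s + t) := by rw [ha0]; abel
      rw [e]
      exact qn_neg (hm.plus s hs t ht)
    by_cases ht0 : t = 0
    · have e : (a - s) + (a - t) = a + a - s := by rw [ht0]; abel
      rw [e]
      exact hm.add_sub ha ha hs
    by_cases hta : a = t
    · have e : (a - s) + (a - t) = a - s := by rw [← hta]; abel
      rw [e]
      exact hcl a ha s hs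
    have e : (a - s) + (a - t) = (a + a - t) - s := by abel
    rw [e]
    refine hm.qline.gen _ 0 a t hm.zero ha ht (fun h => ha0 h.symm) (fun h => ht0 h.symm) hta
      ?_ ?_ ?_ s hs
    · rw [sub_zero]; exact hm.add_sub ha ha ht
    · have e1 : a + a - t - a = a - t := by abel
      rw [e1]; exact hcl a ha t ht
    · have e1 : a + a - t - t = (a - t) + (a - t) := by abel
      rw [e1]; exact p1_two.mpr (hcl a ha t ht)

theorem IsPLine.image_lin {m : Set (X →L[ℂ] X)} (hm : IsPLine m) {S R : X →L[ℂ] X}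
    (hSR : S * R = 1) (hRS : R * S = 1) {c : ℂ} (hc : c ≠ 0) :
    IsPLine ((fun T => c • (S * T * R)) '' m) where
  qline := by
    have h1 := hm.qline.image (isPair_of_gIso (isGIso_aff hSR hRS hc 0))
    have e : (fun T : X →L[ℂ] X => (0 : X →L[ℂ] X) + c • (S * T * R)) =
        fun T => c • (S * T * R) := by
      funext T
      rw [zero_add]
    rwa [e] at h1
  zero := ⟨0, hm.zero, by show c • (S * 0 * R) = 0; rw [mul_zero, zero_mul, smul_zero]⟩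
  plus := by
    rintro _ ⟨s, hs, rfl⟩ _ ⟨t, ht, rfl⟩
    show QN (c • (S * s * R) + c • (S * t * R))
    have e : c • (S * s * R) + c • (S * t * R) = c • (S * (s + t) * R) := by
      rw [mul_add, add_mul, smul_add]
    rw [e]
    exact qn_smul (qn_conj (hm.plus s hs t ht) hSR hRS) c

theorem exists_li3 (hX : ¬ Module.Finite ℂ X) : ∃ v : Fin 3 → X, LinearIndependent ℂ v := by
  apply exists_linearIndependent_of_le_rank
  rw [← Module.rank_lt_aleph0_iff, not_lt] at hX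
  exact le_trans (Cardinal.natCast_lt_aleph0 (n := 3)).le hX

theorem isPLine_rline [CompleteSpace X] (hX : ¬ Module.Finite ℂ X) {x : X} {f : X →L[ℂ] ℂ}
    (hx : x ≠ 0) (hf : f ≠ 0) (hfx : f x = 0) : IsPLine (rline 0 (ten x f)) where
  qline := by
    obtain ⟨v, hv⟩ := exists_li3 hX
    exact IsLine.qline (isLine_rline hv hx hf hfx 0)
  zero := base_mem_rline
  plus := by
    rintro _ ⟨a, rfl⟩ _ ⟨b, rfl⟩
    show QN ((0 + a • ten x f) + (0 + b • ten x f))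
    have e : ((0 : X →L[ℂ] X) + a • ten x f) + (0 + b • ten x f) = (a + b) • ten x f := by
      rw [zero_add, zero_add, add_smul]
    rw [e]
    exact qn_smul (qn_of_sq (ten_sq hfx)) _

end Pool.Agent.H.MP_bb4c62_an.helper5.PL
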