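import Pool.Agent.H.MP_bb4c62_an.helper5.P1

/-!
A self-adjoint map fixing the rank one nilpotents fixes the sums of two of them.
-/

namespace Pool.Agent.H.MP_bb4c62_an.helper5.PL

open Pool.Agent.H.MP_bb4c62_an.helper6.NL
open Pool.Agent.H.MP_bb4c62_an.helper6.Perturb
open Pool.Agent.H.MP_bb4c62_an.helper6.Gadgets

variable {X : Type*} [NormedAddCommGroup X] [NormedSpace ℂ X]

/-- quasinilpotent operators on an invariant plane -/
theorem qn_plane {A : X →L[ℂ] X} (hA : QN A) {x y : X} (hli : LinearIndependent ℂ ![x, y])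
    {p q r s : ℂ} (hAx : A x = p • x + r • y) (hAy : A y = q • x + s • y) :
    p + s = 0 ∧ p * s - q * r = 0 := by
  have hpair := LinearIndependent.pair_iff.mp hli
  have key : ∀ t : ℂ, 1 + t * (-(p + s)) + t ^ 2 * (p * s - q * r) ≠ 0 := by
    intro t ht
    have ht0 : t ≠ 0 := by
      rintro rfl
      simp at ht
    have hdet : (1 - t * p) * (1 - t * s) - (t * q) * (t * r) = 0 := by
      linear_combination ht
    -- an eigenvector
    have eig : ∀ α β : ℂ, (1 - t * p) * α = (t * q) * β → (1 - t * s) * β = (t * r) * α →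
        ¬ (α = 0 ∧ β = 0) → False := by
      intro α β h1 h2 h3
      have hw : α • x + β • y ≠ 0 := fun h0 => h3 (hpair α β h0)
      refine not_qn_of_eigen hw (inv_ne_zero ht0) ?_ hA
      have e1 : α * p + β * q = t⁻¹ * α := by
        rw [eq_inv_mul_iff_mul_eq₀ ht0]; linear_combination -h1
      have e2 : α * r + β * s = t⁻¹ * β := by
        rw [eq_inv_mul_iff_mul_eq₀ ht0]; linear_combination -h2
      rw [map_add, map_smul, map_smul, hAx, hAy]
      calc α • (p • x + r • y) + β • (q • x + s • y)
          = (α * p + β * q) • x + (α * r + β * s) • y := by module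
        _ = t⁻¹ • (α • x + β • y) := by rw [e1, e2]; module
    by_cases h1 : t * q = 0 ∧ 1 - t * p = 0
    · by_cases h2 : 1 - t * s = 0 ∧ t * r = 0
      · exact eig 1 0 (by rw [h1.2]; ring) (by rw [h2.2]; ring) (fun h => one_ne_zero h.1)
      · exact eig (1 - t * s) (t * r) (by linear_combination hdet) (by ring) h2
    · exact eig (t * q) (1 - t * p) (by ring) (by linear_combination hdet) h1
  obtain ⟨h1, h2⟩ := quad_const key
  exact ⟨by linear_combination -h1, h2⟩

/-- step (1) of the main case -/
theorem p9_span [CompleteSpace X] {x y : X} {f g : X →L[ℂ] ℂ} (hfx : f x = 0) (hgy : g y = 0)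
    {T : X →L[ℂ] X}
    (h : ∀ N : X →L[ℂ] X, N1 N → QN (ten x f + ten y g - N) → QN (T - N)) :
    T x ∈ Submodule.span ℂ ({x, y} : Set X) := by
  by_contra hcon
  obtain ⟨k, hk, hkT⟩ := exists_sep_sub (Submodule.fg_span (Set.toFinite _)) hcon
  have hkx : k x = 0 := hk _ (Submodule.subset_span (by simp))
  have hky : k y = 0 := hk _ (Submodule.subset_span (by simp))
  have ht : ∀ t : ℂ, QN (T - ten x f + t • ten x k) := by
    intro t
    have h1 := h (ten x (f + (-t) • k)) ⟨x, f + (-t) • k, by
      show f x + (-t) • k x = 0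
      rw [hfx, hkx, smul_zero, add_zero], rfl⟩ (by
      apply qn_of_pow (n := 3)
      set G := ten x f + ten y g - ten x (f + (-t) • k) with hG
      have hv : ∀ v, G v = g v • y + (t * k v) • x := by
        intro v
        show f v • x + g v • y - (f v + (-t) • k v) • x = _
        rw [smul_eq_mul]; module
      have hGy : G y = 0 := by rw [hv, hgy, hky]; simp
      have hGx : G x = g x • y := by rw [hv, hkx]; simp
      ext v
      have e : (G ^ 3) v = G (G (G v)) := by rw [pow_succ, pow_two]; rfl
      rw [e, hv v, map_add, map_smul, map_smul, hGy, hGx, smul_zero, zero_add, map_smul, map_smul,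
        hGy, smul_zero, smul_zero]
      rfl)
    have e : T - ten x f + t • ten x k = T - ten x (f + (-t) • k) := by
      ext v
      show T v - f v • x + t • (k v • x) = T v - (f v + (-t) • k v) • x
      rw [smul_eq_mul]; module
    rw [e]; exact h1
  have h0 : QN (T - ten x f) := by
    have := ht 0
    rwa [zero_smul, add_zero] at this
  have h2 := pencil_one h0 ht 1
  rw [pow_one] at h2
  have h3 : (T - ten x f) x = T x := by
    show T x - f x • x = T x
    rw [hfx, zero_smul, sub_zero]
  rw [h3, hkT] at h2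
  exact one_ne_zero h2

/-- step (2) of the main case, the tests -/
theorem p9_tests [CompleteSpace X] {x y : X} {f g : X →L[ℂ] ℂ} (hfx : f x = 0) (hgy : g y = 0)
    {T : X →L[ℂ] X}
    (h : ∀ N : X →L[ℂ] X, N1 N → QN (ten x f + ten y g - N) → QN (T - N)) {z : X}
    (hfz : f z = 0) (hgz : g z = 0) {k : X →L[ℂ] ℂ} (hkx : k x = 0) (hky : k y = 0)
    (hkz : k z = 0) : f (T z) + k (T z) = 0 := by
  have ht : ∀ t : ℂ, QN (T - ten x (f + k) + t • ten z (f + k)) := by
    intro t
    have h1 := h (ten (x + (-t) • z) (f + k)) ⟨x + (-t) • z, f + k, by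
      show f (x + (-t) • z) + k (x + (-t) • z) = 0
      rw [map_add, map_add, map_smul, map_smul, hfx, hkx, hfz, hkz]; simp, rfl⟩ (by
      apply qn_of_pow (n := 4)
      set G := ten x f + ten y g - ten (x + (-t) • z) (f + k) with hG
      have hv : ∀ v, G v = g v • y + (-k v) • x + (t * (f v + k v)) • z := by
        intro v
        show f v • x + g v • y - (f v + k v) • (x + (-t) • z) = _
        module
      have hGz : G z = 0 := by rw [hv, hgz, hkz, hfz]; simp
      have hGy : G y = (t * f y) • z := by rw [hv, hgy, hky]; simp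
      have hGx : G x = g x • y := by rw [hv, hkx, hfx]; simp
      ext v
      have e : (G ^ 4) v = G (G (G (G v))) := by
        rw [pow_succ, pow_succ, pow_two]; rfl
      rw [e, hv v]
      simp only [map_add, map_smul, hGz, hGy, hGx, smul_zero, add_zero, map_zero]
      rfl)
    have e : T - ten x (f + k) + t • ten z (f + k) = T - ten (x + (-t) • z) (f + k) := by
      ext v
      show T v - (f v + k v) • x + t • ((f v + k v) • z) = T v - (f v + k v) • (x + (-t) • z)
      module
    rw [e]; exact h1
  have h0 : QN (T - ten x (f + k)) := by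
    have := ht 0
    rwa [zero_smul, add_zero] at this
  have h2 := pencil_one h0 ht 1
  rw [pow_one] at h2
  have h3 : (T - ten x (f + k)) z = T z := by
    show T z - (f z + k z) • x = T z
    rw [hfz, hkz, add_zero, zero_smul, sub_zero]
  rw [h3] at h2
  exact h2

/-- The main case, `T` and `F = x ⊗ f + y ⊗ g` have the same neighbours among the rank one
nilpotents.

Proof. `a = f y`, `b = g x`, `x, y` are independent. For `h` with `h x = h y = 0` and `z` with
`f z = g z = h z = 0`: `s = ten (x + z) (f + h)` is in `N1` and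
`F - s = ten y g - ten x h - ten z (f + h)` is nilpotent, so `QN (T - s)`.
(1) `z = 0`: `QN (T - ten x f - t • ten x h)` for all `t`, so `h (T x) = 0` (`pencil_one` with `n = 1`,
`f x = 0`). So `T x ∈ span {x, y}`; by symmetry `T y ∈ span {x, y}`.
(2) `QN (T - ten x (f + h) - t • ten z (f + h))` for all `t` (replace `z` by `t z`), so
`(f + h) (T z) = 0` (`pencil_one`, `n = 1`, `(f + h) z = 0`); with `h = 0`: `f (T z) = 0`, so `h (T z) = 0`
for all `h` with `h x = h y = h z = 0`; so `T z ∈ span {x, y, z}`, by symmetry `g (T z) = 0`; writing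
`T z = α x + β y + γ z`: `0 = f (T z) = β a`, `0 = g (T z) = α b`, so `T z = γ z`; `γ = 0` because
`T - ten x f` is quasinilpotent and has the eigenvector `z` (if `z ≠ 0`). So `T = 0` on
`ker f ∩ ker g` (no infinite dimension needed).
(3) `T x = p x + r y`, `T y = q x + s y`. `qn_plane` for `T - ten x f` and `T - ten y g`:
`s = -p`, `p ^ 2 + (q - a) r = 0`, `p ^ 2 + q (r - b) = 0`, so `a r = b q`. Let `β ^ 2 = -b / a`, and
`n = ten (x + β • y) ((1/2) • f + δ • g)` with `δ = -β a / (2 b)`: `n ∈ N1` and `F - n` has cube zero (its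
restriction to the plane has trace and determinant zero: `n x = δ b (x + β y)`,
`n y = (a / 2) (x + β y)`), so `QN (T - n)` and `qn_plane` gives
`(p - δ b) ^ 2 + (q - a / 2) (r - δ b β) = 0`. Together: `p δ b = 0`, so `p = 0`, `(q - a) r = 0`,
`q (r - b) = 0`, so `q = r = 0` or `q = a, r = b`. In the first case `T = 0`, so `QN T`, so `QN F`, which
contradicts `qn_plane` for `F` (`-a b ≠ 0`). In the second case `T = F`, since
`v - (g v / b) x - (f v / a) y ∈ ker f ∩ ker g`. -/
theorem eq_of_tests [CompleteSpace X] {x y : X} {f g : X →L[ℂ] ℂ} (hfx : f x = 0) (hgy : g y = 0)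
    (hfy : f y ≠ 0) (hgx : g x ≠ 0) {T : X →L[ℂ] X}
    (h : ∀ N : X →L[ℂ] X, N1 N → (QN (T - N) ↔ QN (ten x f + ten y g - N))) :
    T = ten x f + ten y g := by
  set a := f y with ha
  set b := g x with hb
  have hli : LinearIndependent ℂ ![x, y] := by
    rw [LinearIndependent.pair_iff]
    intro α β h0
    have h1 := congrArg f h0
    have h2 := congrArg g h0
    rw [map_add, map_smul, map_smul, map_zero, hfx, ← ha, smul_eq_mul, smul_eq_mul, mul_zero,
      zero_add] at h1
    rw [map_add, map_smul, map_smul, map_zero, hgy, ← hb, smul_eq_mul, smul_eq_mul, mul_zero,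
      add_zero] at h2
    exact ⟨(mul_eq_zero.mp h2).resolve_right hgx, (mul_eq_zero.mp h1).resolve_right hfy⟩
  have h' : ∀ N : X →L[ℂ] X, N1 N → QN (ten x f + ten y g - N) → QN (T - N) :=
    fun N hN => (h N hN).mpr
  have h'' : ∀ N : X →L[ℂ] X, N1 N → QN (ten y g + ten x f - N) → QN (T - N) := by
    intro N hN hq
    rw [add_comm (ten y g)] at hq
    exact h' N hN hq
  obtain ⟨p, r, hTx⟩ := Submodule.mem_span_pair.mp (p9_span hfx hgy h')
  obtain ⟨s, q, hTy⟩ := Submodule.mem_span_pair.mp (p9_span hgy hfx h'')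
  have hTx' : T x = p • x + r • y := hTx.symm
  have hTy' : T y = q • x + s • y := by rw [← hTy]; abel
  -- the tests with the two summands
  have hN1 : N1 (ten x f) := ⟨x, f, hfx, rfl⟩
  have hN2 : N1 (ten y g) := ⟨y, g, hgy, rfl⟩
  have hq1 : QN (T - ten x f) := by
    apply h' _ hN1
    rw [add_sub_cancel_left]
    exact qn_of_sq (ten_sq hgy)
  have hq2 : QN (T - ten y g) := by
    apply h' _ hN2
    rw [add_sub_cancel_right]
    exact qn_of_sq (ten_sq hfx)
  -- `T` vanishes on the common kernel
  have hker : ∀ z, f z = 0 → g z = 0 → T z = 0 := by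
    intro z hfz hgz
    by_cases hz : z = 0
    · rw [hz, map_zero]
    have hf : f (T z) = 0 := by
      have := p9_tests hfx hgy h' hfz hgz (k := 0) rfl rfl rfl
      simpa using this
    have hg : g (T z) = 0 := by
      have := p9_tests hgy hfx h'' hgz hfz (k := 0) rfl rfl rfl
      simpa using this
    have hsp : T z ∈ Submodule.span ℂ ({x, y, z} : Set X) := by
      by_contra hcon
      obtain ⟨k, hk, hkT⟩ := exists_sep_sub (Submodule.fg_span (Set.toFinite _)) hcon
      have := p9_tests hfx hgy h' hfz hgz (k := k) (hk _ (Submodule.subset_span (by simp)))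
        (hk _ (Submodule.subset_span (by simp))) (hk _ (Submodule.subset_span (by simp)))
      rw [hf, hkT, zero_add] at this
      exact one_ne_zero this
    obtain ⟨α, β, γ, hT⟩ := Submodule.mem_span_triple.mp hsp
    have h1 := congrArg f hT
    have h2 := congrArg g hT
    rw [map_add, map_add, map_smul, map_smul, map_smul, hfx, hfz, hf, ← ha] at h1
    rw [map_add, map_add, map_smul, map_smul, map_smul, hgy, hgz, hg, ← hb] at h2
    simp only [smul_eq_mul, mul_zero, zero_add, add_zero] at h1 h2
    have hβ : β = 0 := (mul_eq_zero.mp h1).resolve_right hfy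
    have hα : α = 0 := (mul_eq_zero.mp h2).resolve_right hgx
    rw [hα, hβ, zero_smul, zero_smul, zero_add, zero_add] at hT
    have hγ : γ = 0 := by
      by_contra hγ
      refine not_qn_of_eigen hz hγ ?_ hq1
      show T z - f z • x = γ • z
      rw [hfz, zero_smul, sub_zero, hT]
    rw [← hT, hγ, zero_smul]
  -- the plane
  obtain ⟨e1, e2⟩ := qn_plane hq1 hli (p := p) (q := q - a) (r := r) (s := s) (by
    show T x - f x • x = _
    rw [hTx', hfx]; module) (by
    show T y - f y • x = _
    rw [hTy', ← ha]; module)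
  obtain ⟨-, e3⟩ := qn_plane hq2 hli (p := p) (q := q) (r := r - b) (s := s) (by
    show T x - g x • y = _
    rw [hTx', ← hb]; module) (by
    show T y - g y • y = _
    rw [hTy', hgy]; module)
  obtain ⟨β, hβ⟩ := IsAlgClosed.exists_pow_nat_eq (-(b / a)) (n := 2) (by norm_num)
  have hβ' : a * β ^ 2 = -b := by rw [hβ]; field_simp
  have hβ0 : β ≠ 0 := by
    rintro rfl
    apply hgx
    have : (0 : ℂ) = -b := by rw [← hβ']; ring
    linear_combination this
  set δ : ℂ := -(β * a) / (2 * b) with hδ
  have hδb : 2 * (δ * b) = -(β * a) := by rw [hδ]; field_simp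
  set n : X →L[ℂ] X := ten (x + β • y) ((1 / 2 : ℂ) • f + δ • g) with hn
  have hnv : ∀ v, n v = ((1 / 2 : ℂ) * f v + δ * g v) • (x + β • y) := fun v => rfl
  have hnN1 : N1 n := ⟨_, _, by
    show (1 / 2 : ℂ) • f (x + β • y) + δ • g (x + β • y) = 0
    rw [map_add, map_add, map_smul, map_smul, hfx, hgy, ← ha, ← hb]
    simp only [smul_eq_mul]
    linear_combination (1 / 2 : ℂ) * hδb, rfl⟩
  have hqn : QN (T - n) := by
    apply h' _ hnN1
    apply qn_of_pow (n := 3)
    set G := ten x f + ten y g - n with hG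
    have hGv : ∀ v, G v = f v • x + g v • y - ((1 / 2 : ℂ) * f v + δ * g v) • (x + β • y) :=
      fun v => rfl
    have hGx : G x = (β * a / 2) • x + (b / 2) • y := by
      rw [hGv, hfx, ← hb]
      have c1 : δ * b = -(β * a / 2) := by linear_combination (1 / 2 : ℂ) * hδb
      have c2 : β * (β * a / 2) = -(b / 2) := by linear_combination (1 / 2 : ℂ) * hβ'
      calc (0 : ℂ) • x + b • y - ((1 / 2 : ℂ) * 0 + δ * b) • (x + β • y)
          = (-(δ * b)) • x + (b - (δ * b) * β) • y := by module
        _ = (β * a / 2) • x + (b / 2) • y := by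
          congr 2
          · rw [c1, neg_neg]
          · rw [c1]; linear_combination c2
    have hGy : G y = (a / 2) • x + (-(β * a / 2)) • y := by
      rw [hGv, hgy, ← ha]
      module
    have hGGx : G (G x) = 0 := by
      rw [hGx, map_add, map_smul, map_smul, hGx, hGy]
      have c3 : (β * a / 2) * (β * a / 2) + (b / 2) * (a / 2) = 0 := by
        linear_combination (a / 4) * hβ'
      calc (β * a / 2) • ((β * a / 2) • x + (b / 2) • y) +
            (b / 2) • ((a / 2) • x + (-(β * a / 2)) • y)
          = ((β * a / 2) * (β * a / 2) + (b / 2) * (a / 2)) • x + (0 : ℂ) • y := by module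
        _ = 0 := by rw [c3, zero_smul, zero_smul, add_zero]
    have hGGy : G (G y) = 0 := by
      rw [hGy, map_add, map_smul, map_smul, hGx, hGy]
      have c3 : (a / 2) * (b / 2) + (β * a / 2) * (β * a / 2) = 0 := by
        linear_combination (a / 4) * hβ'
      calc (a / 2) • ((β * a / 2) • x + (b / 2) • y) +
            (-(β * a / 2)) • ((a / 2) • x + (-(β * a / 2)) • y)
          = (0 : ℂ) • x + ((a / 2) * (b / 2) + (β * a / 2) * (β * a / 2)) • y := by module
        _ = 0 := by rw [c3, zero_smul, zero_smul, add_zero]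
    ext v
    have e : (G ^ 3) v = G (G (G v)) := by rw [pow_succ, pow_two]; rfl
    have e' : G v = (f v - ((1 / 2 : ℂ) * f v + δ * g v)) • x +
        (g v - ((1 / 2 : ℂ) * f v + δ * g v) * β) • y := by
      rw [hGv]; module
    rw [e, e', map_add, map_add, map_smul, map_smul, map_smul, map_smul, hGGx, hGGy, smul_zero,
      smul_zero, add_zero]
    rfl
  obtain ⟨-, e4⟩ := qn_plane hqn hli (p := p + β * a / 2) (q := q - a / 2) (r := r - b / 2)
    (s := s - β * a / 2) (by
    show T x - n x = _
    rw [hnv, hTx', hfx, ← hb]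
    have c1 : δ * b = -(β * a / 2) := by linear_combination (1 / 2 : ℂ) * hδb
    have c2 : β * (β * a / 2) = -(b / 2) := by linear_combination (1 / 2 : ℂ) * hβ'
    calc p • x + r • y - ((1 / 2 : ℂ) * 0 + δ * b) • (x + β • y)
        = (p - δ * b) • x + (r - (δ * b) * β) • y := by module
      _ = _ := by
        congr 2
        · rw [c1]; ring
        · rw [c1]; linear_combination c2) (by
    show T y - n y = _
    rw [hnv, hTy', hgy, ← ha]
    module)
  have hs : s = -p := by linear_combination e1
  rw [hs] at e2 e3 e4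
  have e5 : a * r = q * b := by linear_combination e2 - e3
  have e6 : p * (β * a) = 0 := by
    have c2 : β * a * (β * a) = -(b * a) := by linear_combination a * hβ'
    linear_combination e2 - e4 - (1 / 2 : ℂ) * e5 + (-1 / 4 : ℂ) * c2
  have hp : p = 0 := (mul_eq_zero.mp e6).resolve_right (mul_ne_zero hβ0 hfy)
  rw [hp] at e2 e3
  have e7 : (q - a) * r = 0 := by linear_combination -e2
  have e8 : q * (r - b) = 0 := by linear_combination -e3
  have hs0 : s = 0 := by rw [hs, hp, neg_zero]
  -- a decomposition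
  have hdec : ∀ v, T v = (g v / b) • T x + (f v / a) • T y := by
    intro v
    have h1 : f (v - (g v / b) • x - (f v / a) • y) = 0 := by
      rw [map_sub, map_sub, map_smul, map_smul, hfx, ← ha, smul_eq_mul, smul_eq_mul,
        div_mul_cancel₀ _ hfy]; ring
    have h2 : g (v - (g v / b) • x - (f v / a) • y) = 0 := by
      rw [map_sub, map_sub, map_smul, map_smul, hgy, ← hb, smul_eq_mul, smul_eq_mul,
        div_mul_cancel₀ _ hgx]; ring
    have h3 := hker _ h1 h2
    rw [map_sub, map_sub, map_smul, map_smul, sub_sub, sub_eq_zero] at h3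
    exact h3
  have hcase : (q = 0 ∧ r = 0) ∨ (q = a ∧ r = b) := by
    rcases mul_eq_zero.mp e7 with h1 | h1
    · right
      have hqa : q = a := sub_eq_zero.mp h1
      refine ⟨hqa, ?_⟩
      rcases mul_eq_zero.mp e8 with h2 | h2
      · exact absurd (hqa.symm.trans h2) hfy
      · exact sub_eq_zero.mp h2
    · left
      refine ⟨?_, h1⟩
      rcases mul_eq_zero.mp e8 with h2 | h2
      · exact h2
      · exfalso
        apply hgx
        rw [h1] at h2
        linear_combination -h2
  rcases hcase with ⟨hq, hr⟩ | ⟨hq, hr⟩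
  · exfalso
    have hT0 : T = 0 := by
      ext v
      rw [hdec v, hTx', hTy', hp, hq, hr, hs0]
      simp
    have h1 : QN (ten x f + ten y g) := by
      have h2 := (h 0 ⟨0, 0, by simp, by rw [ten_zero_left]⟩).mp (by
        rw [hT0, sub_zero]
        exact qn_zero)
      rwa [sub_zero] at h2
    obtain ⟨-, h3⟩ := qn_plane h1 hli (p := 0) (q := a) (r := b) (s := 0) (by
      show f x • x + g x • y = _
      rw [hfx, ← hb]) (by
      show f y • x + g y • y = _
      rw [hgy, ← ha])
    have h4 : a * b = 0 := by linear_combination -h3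
    exact (mul_ne_zero hfy hgx) h4
  · ext v
    rw [hdec v, hTx', hTy', hp, hq, hr, hs0]
    show (g v / b) • ((0 : ℂ) • x + b • y) + (f v / a) • (a • x + (0 : ℂ) • y) =
      f v • x + g v • y
    have c1 : g v / b * b = g v := div_mul_cancel₀ _ hgx
    have c2 : f v / a * a = f v := div_mul_cancel₀ _ hfy
    calc (g v / b) • ((0 : ℂ) • x + b • y) + (f v / a) • (a • x + (0 : ℂ) • y)
        = (f v / a * a) • x + (g v / b * b) • y := by module
      _ = f v • x + g v • y := by rw [c1, c2]

/-- the line argument -/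
theorem p9_line [CompleteSpace X] (hX : ¬ Module.Finite ℂ X) {ε : (X →L[ℂ] X) → (X →L[ℂ] X)}
    (h : IsSA ε) {F K : X →L[ℂ] X} (hK : N1 K) (hK0 : K ≠ 0)
    (hfix : ∀ t : ℂ, t ≠ 0 → ε (F + t • K) = F + t • K) : ε F = F := by
  obtain ⟨x, f, hfx, rfl⟩ := hK
  obtain ⟨hx, hf⟩ : x ≠ 0 ∧ f ≠ 0 := by
    rw [Ne, ten_eq_zero_iff] at hK0; push Not at hK0; exact hK0
  obtain ⟨v, hv⟩ := exists_li3 hX
  have hline : IsQLine (rline F (ten x f)) := IsLine.qline (isLine_rline hv hx hf hfx F)
  obtain ⟨e, he⟩ : ∃ e : (X →L[ℂ] X) ≃ (X →L[ℂ] X), ∀ T, e T = ε T :=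
    ⟨Equiv.ofBijective ε h.bij, fun _ => rfl⟩
  have hpair : IsPair ε e.symm := ⟨h.bij, e.symm.bijective, fun T S => by
    rw [h.qn, ← he, e.apply_symm_apply]⟩
  have himg : IsQLine (ε '' rline F (ten x f)) := IsQLine.image hpair hline
  have hmem : ∀ t : ℂ, t ≠ 0 → F + t • ten x f ∈ ε '' rline F (ten x f) :=
    fun t ht => ⟨F + t • ten x f, rline_mem t, hfix t ht⟩
  have hinj : ∀ s t : ℂ, s ≠ t → F + s • ten x f ≠ F + t • ten x f := by
    intro s t hst h1
    have h2 : s • ten x f = t • ten x f := add_left_cancel h1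
    have h3 : (s - t) • ten x f = 0 := by rw [sub_smul, h2, sub_self]
    rcases smul_eq_zero.mp h3 with h4 | h4
    · exact hst (sub_eq_zero.mp h4)
    · exact hK0 h4
  have heq : ε '' rline F (ten x f) = rline F (ten x f) :=
    himg.eq_of_three hline (hmem 1 one_ne_zero) (hmem 2 two_ne_zero) (hmem 3 three_ne_zero)
      (rline_mem 1) (rline_mem 2) (rline_mem 3) (hinj 1 2 (by norm_num)) (hinj 1 3 (by norm_num))
      (hinj 2 3 (by norm_num))
  have h1 : ε F ∈ rline F (ten x f) := by
    rw [← heq]
    exact ⟨F, base_mem_rline, rfl⟩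
  obtain ⟨t, ht⟩ := h1
  have ht' : F + t • ten x f = ε F := ht
  by_cases ht0 : t = 0
  · rw [← ht', ht0, zero_smul, add_zero]
  · exfalso
    have h2 : ε (F + t • ten x f) = ε F := by rw [hfix t ht0, ht']
    have h3 := h.bij.1 h2
    have h4 : F + t • ten x f ≠ F + (0 : ℂ) • ten x f := hinj t 0 ht0
    apply h4
    rw [h3, zero_smul, add_zero]

/-- case (a) -/
theorem p9_caseA [CompleteSpace X] {ε : (X →L[ℂ] X) → (X →L[ℂ] X)}
    (h : IsSA ε) (h1 : ∀ N : X →L[ℂ] X, N1 N → ε N = N) {x y : X} {f g : X →L[ℂ] ℂ}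
    (hfx : f x = 0) (hgy : g y = 0) (hfy : f y ≠ 0) (hgx : g x ≠ 0) :
    ε (ten x f + ten y g) = ten x f + ten y g := by
  apply eq_of_tests hfx hgy hfy hgx
  intro N hN
  rw [h.qn, h1 N hN]

/-- cases (a) and (c) -/
theorem p9_caseC [CompleteSpace X] (hX : ¬ Module.Finite ℂ X)
    {ε : (X →L[ℂ] X) → (X →L[ℂ] X)}
    (h : IsSA ε) (h1 : ∀ N : X →L[ℂ] X, N1 N → ε N = N) {x y : X} {f g : X →L[ℂ] ℂ}
    (hfx : f x = 0) (hgy : g y = 0) (hgx : g x ≠ 0) :
    ε (ten x f + ten y g) = ten x f + ten y g := by
  by_cases hfy : f y = 0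
  · by_cases hy : y = 0
    · have e : ten x f + ten y g = ten x f := by rw [hy, ten_zero_left, add_zero]
      rw [e]
      exact h1 _ ⟨x, f, hfx, rfl⟩
    have hyx : y ∉ Submodule.span ℂ ({x} : Set X) := by
      intro hmem
      obtain ⟨c, hc⟩ := Submodule.mem_span_singleton.mp hmem
      have h2 := congrArg g hc
      rw [map_smul, hgy, smul_eq_mul] at h2
      have hc0 : c = 0 := (mul_eq_zero.mp h2).resolve_right hgx
      apply hy
      rw [← hc, hc0, zero_smul]
    obtain ⟨k, hk, hky⟩ := exists_sep_sub (Submodule.fg_span_singleton x) hyx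
    have hkx : k x = 0 := hk _ (Submodule.mem_span_singleton_self x)
    have hx : x ≠ 0 := by
      rintro rfl
      exact hgx (map_zero g)
    have hk0 : k ≠ 0 := by
      rintro rfl
      exact zero_ne_one hky
    apply p9_line hX h (K := ten x k) ⟨x, k, hkx, rfl⟩
    · rw [Ne, ten_eq_zero_iff]
      push Not
      exact ⟨hx, hk0⟩
    · intro t ht
      have e : ten x f + ten y g + t • ten x k = ten x (f + t • k) + ten y g := by
        ext v
        show f v • x + g v • y + t • (k v • x) = (f v + t • k v) • x + g v • y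
        rw [smul_eq_mul]; module
      rw [e]
      apply p9_caseA h h1 _ hgy _ hgx
      · show f x + t • k x = 0
        rw [hfx, hkx, smul_zero, add_zero]
      · show f y + t • k y ≠ 0
        rw [hfy, hky, zero_add, smul_eq_mul, mul_one]
        exact ht
  · exact p9_caseA h h1 hfx hgy hfy hgx

/-- Proof. `N = ten x f`, `N' = ten y g`. (a) `f y ≠ 0`, `g x ≠ 0`: `eq_of_tests`, since
`QN (ε F - N) ↔ QN (F - ε N) = QN (F - N)`. (b) A line argument: let `F` and `K ∈ N1`, `K ≠ 0`, be such
that `ε` fixes `F + t • K` for all `t ≠ 0`; then `ε F = F`: the quasi-lines `rline F K` (`isLine_rline`)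
and `ε '' rline F K` (`(ε, ε⁻¹)` is a pair; `IsQLine.image`) have three common points, so they are
equal, and `ε F = F + t • K` for some `t`, `t = 0` by injectivity. (c) `f y = 0`, `g x ≠ 0`: `x, y` are
independent; choose `h` with `h x = 0`, `h y = 1` and `K = ten x h` (then `F + t • K = ten x (f + t h) +
ten y g` is of type (a)). Symmetric: `f y ≠ 0`, `g x = 0`. (d) `f y = 0 = g x`. If `x ∉ ℂ y`, `y ≠ 0`,
choose `k` with `k y = 0`, `k x = 1`, `K = ten y k`: `F + t • K = ten x f + ten y (g + t k)` is of
type (c). If `x = c y` then `F = ten y (c f + g)` is in `N1` (`y = 0`: `F = ten x f`). -/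
theorem fix_add [CompleteSpace X] (hX : ¬ Module.Finite ℂ X) {ε : (X →L[ℂ] X) → (X →L[ℂ] X)}
    (h : IsSA ε) (h1 : ∀ N : X →L[ℂ] X, N1 N → ε N = N) {N N' : X →L[ℂ] X} (hN : N1 N)
    (hN' : N1 N') : ε (N + N') = N + N' := by
  obtain ⟨x, f, hfx, rfl⟩ := hN
  obtain ⟨y, g, hgy, rfl⟩ := hN'
  by_cases hgx : g x = 0
  · by_cases hfy : f y = 0
    · by_cases hy : y = 0
      · have e : ten x f + ten y g = ten x f := by rw [hy, ten_zero_left, add_zero]
        rw [e]
        exact h1 _ ⟨x, f, hfx, rfl⟩
      by_cases hxy : x ∈ Submodule.span ℂ ({y} : Set X)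
      · obtain ⟨c, hc⟩ := Submodule.mem_span_singleton.mp hxy
        have e : ten x f + ten y g = ten y (c • f + g) := by
          ext v
          show f v • x + g v • y = (c • f v + g v) • y
          rw [← hc, smul_eq_mul]; module
        rw [e]
        apply h1
        refine ⟨y, c • f + g, ?_, rfl⟩
        show c • f y + g y = 0
        rw [hfy, hgy, smul_zero, add_zero]
      · obtain ⟨k, hk, hkx⟩ := exists_sep_sub (Submodule.fg_span_singleton y) hxy
        have hky : k y = 0 := hk _ (Submodule.mem_span_singleton_self y)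
        have hk0 : k ≠ 0 := by
          rintro rfl
          exact zero_ne_one hkx
        apply p9_line hX h (K := ten y k) ⟨y, k, hky, rfl⟩
        · rw [Ne, ten_eq_zero_iff]
          push Not
          exact ⟨hy, hk0⟩
        · intro t ht
          have e : ten x f + ten y g + t • ten y k = ten x f + ten y (g + t • k) := by
            ext v
            show f v • x + g v • y + t • (k v • y) = f v • x + (g v + t • k v) • y
            rw [smul_eq_mul]; module
          rw [e]
          apply p9_caseC hX h h1 hfx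
          · show g y + t • k y = 0
            rw [hgy, hky, smul_zero, add_zero]
          · show g x + t • k x ≠ 0
            rw [hgx, hkx, zero_add, smul_eq_mul, mul_one]
            exact ht
    · rw [add_comm (ten x f)]
      exact p9_caseC hX h h1 hgy hfx hfy
  · exact p9_caseC hX h h1 hfx hgy hgx

end Pool.Agent.H.MP_bb4c62_an.helper5.PL
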