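import Pool.Agent.H.MP_bb4c62_an.helper5.P8
import Pool.Agent.H.MP_bb4c62_an.helper5.P9

/-!
From rank one operators to the span of the quasinilpotents; the final theorem for the plus sign.
-/

namespace Pool.Agent.H.MP_bb4c62_an.helper5.PL

open Pool.Agent.H.MP_bb4c62_an.helper6.NL
open Pool.Agent.H.MP_bb4c62_an.helper6.Perturb
open Pool.Agent.H.MP_bb4c62_an.helper6.Gadgets

variable {X : Type*} [NormedAddCommGroup X] [NormedSpace ℂ X]
variable {Y : Type*} [NormedAddCommGroup Y] [NormedSpace ℂ Y]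

theorem IsSA.shift {ε : (X →L[ℂ] X) → (X →L[ℂ] X)} (h : IsSA ε) (G : X →L[ℂ] X) :
    IsSA (fun T => ε (G + T) - G) := by
  refine ⟨⟨?_, ?_⟩, ?_⟩
  · intro a b hab
    have h1 : ε (G + a) = ε (G + b) := sub_left_injective hab
    exact add_left_cancel (h.bij.1 h1)
  · intro U
    obtain ⟨W, hW⟩ := h.bij.2 (U + G)
    refine ⟨W - G, ?_⟩
    show ε (G + (W - G)) - G = U
    rw [add_sub_cancel, hW, add_sub_cancel_right]
  · intro T S
    show QN (ε (G + T) - G - S) ↔ QN (T - (ε (G + S) - G))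
    have e1 : ε (G + T) - G - S = ε (G + T) - (G + S) := by abel
    have e2 : T - (ε (G + S) - G) = G + T - ε (G + S) := by abel
    rw [e1, e2]
    exact h.qn _ _

theorem p10_n1_zero : N1 (0 : X →L[ℂ] X) := ⟨0, 0, by simp, by rw [ten_zero_left]⟩

theorem p10_fix_F0 [CompleteSpace X] (hX : ¬ Module.Finite ℂ X)
    {ε : (X →L[ℂ] X) → (X →L[ℂ] X)} (h : IsSA ε) {K : X →L[ℂ] X} (hK : K ∈ F0 X) :
    ∀ (c : ℂ) (G : X →L[ℂ] X), (∀ N : X →L[ℂ] X, N1 N → ε (G + N) = G + N) →
      ∀ N : X →L[ℂ] X, N1 N → ε (G + c • K + N) = G + c • K + N := by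
  unfold F0 at hK
  induction hK using Submodule.span_induction with
  | mem T hT =>
    obtain ⟨x0, f0, h0, rfl⟩ := hT
    intro c G hG N hN
    have h1 : N1 (c • ten x0 f0) :=
      ⟨c • x0, f0, by rw [map_smul, h0, smul_zero], by rw [ten_smul_left]⟩
    have h2 := fix_add hX (h.shift G) (fun N hN => by
      show ε (G + N) - G = N
      rw [hG N hN, add_sub_cancel_left]) h1 hN
    have h3 : ε (G + (c • ten x0 f0 + N)) - G = c • ten x0 f0 + N := h2
    rw [add_assoc]
    rw [sub_eq_iff_eq_add] at h3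
    rw [h3]; abel
  | zero =>
    intro c G hG
    rw [smul_zero, add_zero]; exact hG
  | add K L _ _ hK hL =>
    intro c G hG
    rw [smul_add, ← add_assoc]
    exact hL c _ (hK c G hG)
  | smul a K _ hK =>
    intro c G hG
    rw [smul_smul]
    exact hK _ G hG

theorem p10_fix_F0' [CompleteSpace X] (hX : ¬ Module.Finite ℂ X)
    {ε : (X →L[ℂ] X) → (X →L[ℂ] X)} (h : IsSA ε)
    (h1 : ∀ N : X →L[ℂ] X, N1 N → ε N = N) {K : X →L[ℂ] X} (hK : K ∈ F0 X) : ε K = K := by
  have h2 := p10_fix_F0 hX h hK 1 0 (fun N hN => by rw [zero_add]; exact h1 N hN) 0 p10_n1_zero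
  rwa [zero_add, one_smul, add_zero] at h2

theorem p10_step [CompleteSpace X] (hX : ¬ Module.Finite ℂ X)
    {ε : (X →L[ℂ] X) → (X →L[ℂ] X)} (h : IsSA ε) (h1 : ∀ K ∈ F0 X, ε K = K)
    {D : X →L[ℂ] X} (hD : QN D) : ε D = D := by
  have h0 : ε 0 = 0 := h1 0 (F0 X).zero_mem
  by_cases hD0 : D = 0
  · rw [hD0, h0]
  have hQM : QN (ε D) := by
    have := (h.qn D 0).mpr (by rw [h0, sub_zero]; exact hD)
    rwa [sub_zero] at this
  refine eq_of_moves hD hD0 hQM ?_
  intro x x' z z' hx hz
  obtain ⟨A, B, hAB, hBA, hA1, hAx, hAx'⟩ := exists_move hX hx hz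
  refine ⟨A, B, hAB, hBA, hAx, hAx', ?_⟩
  have hK : -(A * D * B - D) ∈ F0 X := Submodule.neg_mem _ (conj_sub_mem_F0 hBA hA1 D)
  have h3 : QN (ε D - -(A * D * B - D)) := by
    rw [h.qn, h1 _ hK]
    have e : D - -(A * D * B - D) = A * D * B := by abel
    rw [e]
    exact qn_conj hD hAB hBA
  have e : ε D - D + A * D * B = ε D - -(A * D * B - D) := by abel
  rw [e]; exact h3

/-- Proof. (1) By `fix_add` for the shifted map, if `ε (G + N) = G + N` for all `N ∈ N1` then the same
holds for `G + N'`, `N' ∈ N1`; so `ε` fixes `F0 X` (induction over the span as in `glue_chain`).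
(2) If `ε (R + K) = R + K` for all `K ∈ F0 X` and `QN D` then `ε (R + D + K) = R + D + K` for all
`K ∈ F0 X`: shift by `G = R + K`; `M = ε_G D` is quasinilpotent, and `M = D` by `eq_of_moves`,
`exists_move`, `conj_sub_mem_F0` as in `qn_stepI` (helper6/NExt2.lean). (3) Induction over `QSpan X`. -/
theorem fix_qspan [CompleteSpace X] (hX : ¬ Module.Finite ℂ X) {ε : (X →L[ℂ] X) → (X →L[ℂ] X)}
    (h : IsSA ε) (h1 : ∀ N : X →L[ℂ] X, N1 N → ε N = N) {T : X →L[ℂ] X} (hT : T ∈ QSpan X) :
    ε T = T := by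
  have key : ∀ (c : ℂ) (R : X →L[ℂ] X), (∀ K ∈ F0 X, ε (R + K) = R + K) →
      ∀ K ∈ F0 X, ε (R + c • T + K) = R + c • T + K := by
    unfold QSpan at hT
    induction hT using Submodule.span_induction with
    | mem D hD =>
      intro c R hR K hK
      have hD' : QN (c • D) := qn_smul hD c
      have h2 := p10_step hX (h.shift (R + K)) (fun K' hK' => by
        show ε (R + K + K') - (R + K) = K'
        rw [add_assoc, hR _ ((F0 X).add_mem hK hK')]; abel) hD'
      have h3 : ε (R + K + c • D) - (R + K) = c • D := h2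
      have e : R + c • D + K = R + K + c • D := by abel
      rw [e]
      rw [sub_eq_iff_eq_add] at h3
      rw [h3]; abel
    | zero =>
      intro c R hR
      rw [smul_zero, add_zero]; exact hR
    | add V W _ _ hV hW =>
      intro c R hR
      rw [smul_add, ← add_assoc]
      exact hW c _ (hV c R hR)
    | smul a V _ hV =>
      intro c R hR
      rw [smul_smul]
      exact hV _ R hR
  have h2 := key 1 0 (fun K hK => by rw [zero_add]; exact p10_fix_F0' hX h h1 hK) 0
    (F0 X).zero_mem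
  rwa [zero_add, one_smul, add_zero] at h2

/-- plus-maps are odd on the span of the quasinilpotents -/
theorem odd_on_qspan [CompleteSpace X] (hX : ¬ Module.Finite ℂ X)
    {φ : (X →L[ℂ] X) → (Y →L[ℂ] Y)} (h : IsPlus φ) {T : X →L[ℂ] X} (hT : T ∈ QSpan X) :
    φ (-T) = -φ T := by
  obtain ⟨ε, hε, hE⟩ := exists_sa h
  have h1 : ε T = T := fix_qspan hX hε (by
    rintro _ ⟨x, f, hfx, rfl⟩
    exact sa_fix hX h hε hE hfx) hT
  have := hE T
  rwa [h1] at this

/-- in finite dimension the quasinilpotents span everything only if the space is zero -/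
theorem p10_subsingleton [CompleteSpace X] [Module.Finite ℂ X] (h : QSpan X = ⊤) :
    Subsingleton X := by
  have key : ∀ T ∈ QSpan X, LinearMap.trace ℂ X (T : X →ₗ[ℂ] X) = 0 := by
    intro T hT
    unfold QSpan at hT
    induction hT using Submodule.span_induction with
    | mem D hD =>
      have h1 : D ^ (Module.finrank ℂ X) = 0 := pow_finrank_zero hD
      have h2 : IsNilpotent (D : X →ₗ[ℂ] X) := by
        refine ⟨Module.finrank ℂ X, ?_⟩
        ext x
        have h3 : (D ^ (Module.finrank ℂ X)) x = 0 := by rw [h1]; rfl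
        have h4 : ∀ (n : ℕ) (x : X), ((D : X →ₗ[ℂ] X) ^ n) x = (D ^ n) x := by
          intro n
          induction n with
          | zero => intro x; rfl
          | succ n ih =>
            intro x
            rw [pow_succ, pow_succ]
            exact ih (D x)
        rw [h4, h3]; rfl
      exact (LinearMap.isNilpotent_trace_of_isNilpotent h2).eq_zero
    | zero => simp
    | add V W _ _ hV hW =>
      rw [ContinuousLinearMap.toLinearMap_add, map_add, hV, hW, add_zero]
    | smul a V _ hV =>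
      rw [ContinuousLinearMap.toLinearMap_smul, map_smul, hV, smul_zero]
  have h1 : (1 : X →L[ℂ] X) ∈ QSpan X := by rw [h]; trivial
  have h2 := key 1 h1
  have h3 : LinearMap.trace ℂ X (1 : X →ₗ[ℂ] X) = 0 := h2
  rw [LinearMap.trace_one] at h3
  have h4 : Module.finrank ℂ X = 0 := by exact_mod_cast h3
  exact Module.finrank_zero_iff.mp h4

theorem p10_subsingleton_op (h : Subsingleton (X →L[ℂ] X)) : Subsingleton X := by
  constructor
  have h1 : ∀ x : X, x = 0 := by
    intro x
    have : (1 : X →L[ℂ] X) x = (0 : X →L[ℂ] X) x := by rw [Subsingleton.elim (1 : X →L[ℂ] X) 0]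
    exact this
  intro a b
  rw [h1 a, h1 b]

theorem p10_op_subsingleton (h : Subsingleton X) : Subsingleton (X →L[ℂ] X) :=
  ⟨fun S T => by ext x; exact Subsingleton.elim _ _⟩

theorem main_plus_inf [CompleteSpace X] [CompleteSpace Y] (φ : (X →L[ℂ] X) → (Y →L[ℂ] Y))
    (hsurj : Function.Surjective φ)
    (hyp : (Module.Finite ℂ X ∧ Module.Finite ℂ Y) ∨ QSpan X = ⊤ ∨ QSpan Y = ⊤) :
    (∀ T S : X →L[ℂ] X, spectralRadius ℂ (φ T + φ S) = 0 ↔ spectralRadius ℂ (T + S) = 0) ↔
      ((∀ T, φ (-T) = -φ T) ∧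
      (∀ T S : X →L[ℂ] X, φ T - φ S ∈ QSpan Y ↔ T - S ∈ QSpan X) ∧
        ∀ R : X →L[ℂ] X, FormI φ R ∨ FormII φ R) := by
  constructor
  · intro h
    refine (main_plus φ hsurj ?_).mp h
    have hinj := injective_of_qn_plus h
    have hP : IsPlus φ := ⟨⟨hinj, hsurj⟩, h⟩
    rcases hyp with h1 | h1 | h1
    · exact Or.inl h1
    · by_cases hX : Module.Finite ℂ X
      · left
        have h2 := p10_op_subsingleton (p10_subsingleton h1)
        have h3 : Subsingleton (Y →L[ℂ] Y) := hsurj.subsingleton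
        have h4 := p10_subsingleton_op h3
        exact ⟨hX, inferInstance⟩
      · right
        intro T
        exact odd_on_qspan hX hP (by rw [h1]; trivial)
    · by_cases hY : Module.Finite ℂ Y
      · left
        have h2 := p10_op_subsingleton (p10_subsingleton h1)
        have h3 : Subsingleton (X →L[ℂ] X) := hinj.subsingleton
        have h4 := p10_subsingleton_op h3
        exact ⟨inferInstance, hY⟩
      · right
        intro T
        obtain ⟨e, he⟩ : ∃ e : (X →L[ℂ] X) ≃ (Y →L[ℂ] Y), ∀ T, e T = φ T :=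
          ⟨Equiv.ofBijective φ hP.bij, fun _ => rfl⟩
        have hP' : IsPlus (fun U => e.symm U) := by
          refine ⟨e.symm.bijective, fun T S => ?_⟩
          show QN (e.symm T + e.symm S) ↔ QN (T + S)
          rw [← hP.qn, ← he, ← he, e.apply_symm_apply, e.apply_symm_apply]
        have h2 := odd_on_qspan hY hP' (T := φ T) (by rw [h1]; trivial)
        have h3 : e.symm (-φ T) = -e.symm (φ T) := h2
        rw [← he T, e.symm_apply_apply, Equiv.symm_apply_eq, he, he] at h3
        exact h3.symm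
  · rintro ⟨hodd, h⟩
    exact (main_plus φ hsurj (Or.inr hodd)).mpr ⟨hodd, h⟩

end Pool.Agent.H.MP_bb4c62_an.helper5.PL
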