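import Pool.Agent.H.MP_bb4c62_an.helper5.P1

/-!
The sets `CC N`.
-/

namespace Pool.Agent.H.MP_bb4c62_an.helper5.PL

open Pool.Agent.H.MP_bb4c62_an.helper6.NL
open Pool.Agent.H.MP_bb4c62_an.helper6.Perturb
open Pool.Agent.H.MP_bb4c62_an.helper6.Gadgets

variable {X : Type*} [NormedAddCommGroup X] [NormedSpace ℂ X]
variable {Y : Type*} [NormedAddCommGroup Y] [NormedSpace ℂ Y]

theorem p2_image_mp {φ : (X →L[ℂ] X) → (Y →L[ℂ] Y)} (h : IsPlus φ) {N S : X →L[ℂ] X}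
    (hS : S ∈ CC N) : φ S ∈ CC (φ N) := by
  obtain ⟨ψ, hψ, hψφ, hφψ⟩ := h.exists_inv
  intro K hK hN w hw
  have hK' : IsPLine (ψ '' K) := IsPLine.image_plus hψ hK
  have hN' : N ∈ ψ '' K := ⟨φ N, hN, hψφ N⟩
  have := hS (ψ '' K) hK' hN' (ψ w) (Set.mem_image_of_mem ψ hw)
  rw [← h.qn, hφψ] at this
  exact this

theorem CC_image {φ : (X →L[ℂ] X) → (Y →L[ℂ] Y)} (h : IsPlus φ) {N S : X →L[ℂ] X} :
    φ S ∈ CC (φ N) ↔ S ∈ CC N := by
  constructor
  · intro hS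
    obtain ⟨ψ, hψ, hψφ, hφψ⟩ := h.exists_inv
    have := p2_image_mp hψ hS
    rwa [hψφ, hψφ] at this
  · exact p2_image_mp h

theorem CC_zero (N : X →L[ℂ] X) : (0 : X →L[ℂ] X) ∈ CC N := by
  intro K hK _ w hw
  rw [zero_add]
  exact hK.qn hw

theorem CC_refl {A S : X →L[ℂ] X} (h : S ∈ CC A) : -A - S ∈ CC A := by
  intro K hK hA w hw
  have hK' : IsPLine ((fun T => A - T) '' K) := IsPLine.refl hK hA
  have hA' : A ∈ (fun T => A - T) '' K := ⟨0, hK.zero, sub_zero A⟩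
  have := h _ hK' hA' (A - w) ⟨w, hw, rfl⟩
  have h2 := qn_neg this
  have e : -A - S + w = -(S + (A - w)) := by abel
  rw [e]
  exact h2

theorem CC_lin {S R : X →L[ℂ] X} (hSR : S * R = 1) (hRS : R * S = 1) {c : ℂ} (hc : c ≠ 0)
    {N T : X →L[ℂ] X} (hT : T ∈ CC N) : c • (S * T * R) ∈ CC (c • (S * N * R)) := by
  intro K hK hN w hw
  have hK' : IsPLine ((fun V => c⁻¹ • (R * V * S)) '' K) :=
    IsPLine.image_lin hK hRS hSR (inv_ne_zero hc)
  have hN' : N ∈ (fun V => c⁻¹ • (R * V * S)) '' K := by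
    refine ⟨c • (S * N * R), hN, ?_⟩
    show c⁻¹ • (R * (c • (S * N * R)) * S) = N
    rw [mul_smul_comm, smul_mul_assoc, smul_smul, inv_mul_cancel₀ hc, one_smul]
    calc R * (S * N * R) * S = (R * S) * N * (R * S) := by simp only [mul_assoc]
      _ = N := by rw [hRS, one_mul, mul_one]
  have h1 := hT _ hK' hN' (c⁻¹ • (R * w * S)) ⟨w, hw, rfl⟩
  have h2 := qn_smul (qn_conj h1 hSR hRS) c
  have e : c • (S * (T + c⁻¹ • (R * w * S)) * R) = c • (S * T * R) + w := by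
    rw [mul_add, add_mul, smul_add, mul_smul_comm, smul_mul_assoc, smul_smul,
      mul_inv_cancel₀ hc, one_smul]
    congr 1
    calc S * (R * w * S) * R = (S * R) * w * (S * R) := by simp only [mul_assoc]
      _ = w := by rw [hSR, one_mul, mul_one]
  rw [← e]
  exact h2

theorem CC_smul {c : ℂ} (hc : c ≠ 0) {N T : X →L[ℂ] X} (hT : T ∈ CC N) :
    c • T ∈ CC (c • N) := by
  have := CC_lin (S := (1 : X →L[ℂ] X)) (R := 1) (mul_one 1) (mul_one 1) hc hT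
  simpa only [one_mul, mul_one] using this

theorem CC_ten [CompleteSpace X] (hX : ¬ Module.Finite ℂ X) {x : X} {f : X →L[ℂ] ℂ}
    (hx : x ≠ 0) (hf : f ≠ 0) (hfx : f x = 0) (z : ℂ) : z • ten x f ∈ CC (ten x f) := by
  intro K hK hA w hw
  have := line_through hX hK.isLine hx hf hfx hK.zero hA hw (-z)
  rw [neg_smul, sub_neg_eq_add, add_comm] at this
  exact this

theorem CC_qn [CompleteSpace X] (hX : ¬ Module.Finite ℂ X) {x : X} {f : X →L[ℂ] ℂ}
    (hx : x ≠ 0) (hf : f ≠ 0) (hfx : f x = 0) {S : X →L[ℂ] X} (hS : S ∈ CC (ten x f)) :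
    QN S := by
  have hA : ten x f ∈ rline 0 (ten x f) := ⟨1, by simp⟩
  have := hS _ (isPLine_rline hX hx hf hfx) hA 0 base_mem_rline
  rwa [add_zero] at this

end Pool.Agent.H.MP_bb4c62_an.helper5.PL
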