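import Pool.Agent.H.MP_bb4c62_an.helper5.PDefs

/-!
The product trick.
-/

namespace Pool.Agent.H.MP_bb4c62_an.helper5.PL

open Complex Metric Set Filter Topology
open Pool.Agent.H.MP_bb4c62_an.helper6.NL
open Pool.Agent.H.MP_bb4c62_an.helper6.Perturb
open Pool.Agent.H.MP_bb4c62_an.helper6.Gadgets

variable {X : Type*} [NormedAddCommGroup X] [NormedSpace ℂ X]

/-- The product trick.

Proof. Put `D = P - w` (quasinilpotent: `σ = 0`), `κ = k (P y)`. With `L = σ • ten y k`, `L * L = 0`,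
`conj_sq` gives `(1 + L) P (1 - L) - w = D + σ • (ten y (k.comp P) - ten (P y) k) - σ ^ 2 • κ • ten y k`.
For `z ≠ 0` put `R = Ring.inverse (1 - z • D)`; as in `pencil_two_res` (helper6/NPencil.lean), for every
`σ` the operator `1 - z • (D + F_σ)` is injective, and a nonzero solution of the 2x2 system would give
an eigenvector `v = w0 • R y + w1 • R (P y)` (use `not_qn_of_eigen` with `μ = z⁻¹`), so the 2x2
determinant does not vanish:
`1 + σ * a + σ ^ 2 * b ≠ 0` for all `σ`, where, with `P y =: u`,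
`a = z * (k (R u) - k (P (R y)))`,
`b = z * κ * k (R y) + z ^ 2 * (k (P (R u)) * k (R y) - k (P (R y)) * k (R u))`
(the `σ ^ 3` terms cancel). By `quad_const`, `b = 0`. Since `k y = 0`, `res_expand` gives
`k (R y) = z * k (R (D y))`; dividing by `z ^ 2`:
`κ * k (R (D y)) + z * k (P (R u)) * k (R (D y)) - k (P (R y)) * k (R u) = 0` for `z ≠ 0`, hence by
continuity (`eq_zero_of_off_zero`, `differentiable_resolvent`; use `k.comp P` for `k (P (R v))`) also
for `z = 0` (`res_zero`): `κ * k (D y) - κ * κ = 0`, that is, `κ * (k (P y) - k (w y) - κ) = 0`,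
`- κ * k (w y) = 0`. -/
theorem prod_trick [CompleteSpace X] {P w : X →L[ℂ] X} {y : X} {k : X →L[ℂ] ℂ} (hky : k y = 0)
    (h : ∀ σ : ℂ, QN ((1 + σ • ten y k) * P * (1 - σ • ten y k) - w)) :
    k (w y) * k (P y) = 0 := by
  obtain ⟨D, hDdef⟩ : ∃ D : X →L[ℂ] X, D = P - w := ⟨_, rfl⟩
  obtain ⟨κ, hκ⟩ : ∃ κ : ℂ, κ = k (P y) := ⟨_, rfl⟩
  have hD : QN D := by
    have h0 := h 0
    have e : (1 + (0 : ℂ) • ten y k) * P * (1 - (0 : ℂ) • ten y k) - w = D := by
      rw [hDdef, zero_smul, add_zero, sub_zero, one_mul, mul_one]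
    rwa [e] at h0
  -- the conjugated operator
  have happ : ∀ (σ : ℂ) (v : X), ((1 + σ • ten y k) * P * (1 - σ • ten y k) - w) v =
      D v + ((σ * k (P v) - σ ^ 2 * κ * k v) • y - (σ * k v) • P y) := by
    intro σ v
    have e1 : ((1 + σ • ten y k) * P * (1 - σ • ten y k) - w) v =
        (P (v - σ • k v • y) + σ • k (P (v - σ • k v • y)) • y) - w v := rfl
    have e2 : D v = P v - w v := by rw [hDdef]; rfl
    rw [e1, e2, map_sub, map_smul, map_smul, map_sub, map_smul, map_smul, hκ]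
    simp only [smul_eq_mul]
    module
  have hres : ∀ ζ : ℂ, ζ ≠ 0 →
      κ * k (Ring.inverse (1 - ζ • D) (D y)) +
        ζ * ((k.comp P) (Ring.inverse (1 - ζ • D) (P y)) *
          k (Ring.inverse (1 - ζ • D) (D y))) -
        (k.comp P) (Ring.inverse (1 - ζ • D) y) * k (Ring.inverse (1 - ζ • D) (P y)) = 0 := by
    intro ζ hζ
    have e0 : k (Ring.inverse (1 - ζ • D) y) = ζ * k (Ring.inverse (1 - ζ • D) (D y)) := by
      rw [res_expand hD ζ y, map_add, hky, zero_add, map_smul, smul_eq_mul]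
    have hu := (qn_iff D).mp hD ζ
    obtain ⟨R, hR⟩ : ∃ R : X →L[ℂ] X, R = Ring.inverse (1 - ζ • D) := ⟨_, rfl⟩
    have hRinv : (1 - ζ • D) * R = 1 := by rw [hR]; exact Ring.mul_inverse_cancel _ hu
    rw [← hR] at e0 ⊢
    obtain ⟨α, hα⟩ : ∃ α : ℂ, α = k (P (R y)) := ⟨_, rfl⟩
    obtain ⟨β, hβ⟩ : ∃ β : ℂ, β = k (P (R (P y))) := ⟨_, rfl⟩
    obtain ⟨γ, hγ⟩ : ∃ γ : ℂ, γ = k (R y) := ⟨_, rfl⟩
    obtain ⟨δ, hδ⟩ : ∃ δ : ℂ, δ = k (R (P y)) := ⟨_, rfl⟩
    have key : ∀ σ : ℂ, 1 + σ * (ζ * (δ - α)) +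
        σ ^ 2 * (ζ * κ * γ + ζ ^ 2 * (β * γ - α * δ)) ≠ 0 := by
      intro σ hs
      have hdet : (!![1 - ζ * σ * α + ζ * σ ^ 2 * κ * γ, -(ζ * σ * β) + ζ * σ ^ 2 * κ * δ;
          ζ * σ * γ, 1 + ζ * σ * δ] : Matrix (Fin 2) (Fin 2) ℂ).det = 0 := by
        rw [Matrix.det_fin_two_of]
        linear_combination hs
      obtain ⟨u, hu0, hu1⟩ := Matrix.exists_mulVec_eq_zero_iff.mpr hdet
      have e1 : (1 - ζ * σ * α + ζ * σ ^ 2 * κ * γ) * u 0 +
          (-(ζ * σ * β) + ζ * σ ^ 2 * κ * δ) * u 1 = 0 := by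
        have := congrFun hu1 0
        simpa [Matrix.mulVec, dotProduct, Fin.sum_univ_two] using this
      have e2 : ζ * σ * γ * u 0 + (1 + ζ * σ * δ) * u 1 = 0 := by
        have := congrFun hu1 1
        simpa [Matrix.mulVec, dotProduct, Fin.sum_univ_two] using this
      obtain ⟨v, hv⟩ : ∃ v : X, v = u 0 • R y + u 1 • R (P y) := ⟨_, rfl⟩
      have hpv : k (P v) = u 0 * α + u 1 * β := by
        rw [hv, map_add, map_smul, map_smul, map_add, map_smul, map_smul, hα, hβ]; rfl
      have hkv : k v = u 0 * γ + u 1 * δ := by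
        rw [hv, map_add, map_smul, map_smul, hγ, hδ]; rfl
      have f1 : u 0 = ζ * (σ * k (P v) - σ ^ 2 * κ * k v) := by
        rw [hpv, hkv]; linear_combination e1
      have f2 : u 1 = -(ζ * (σ * k v)) := by
        rw [hkv]; linear_combination e2
      have hv0 : v ≠ 0 := by
        intro h0
        rw [h0, map_zero, map_zero] at f1
        rw [h0, map_zero] at f2
        apply hu0
        ext i
        fin_cases i
        · show u 0 = 0
          rw [f1]; ring
        · show u 1 = 0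
          rw [f2]; ring
      refine not_qn_of_eigen (x := v) (μ := ζ⁻¹) hv0 (inv_ne_zero hζ) ?_ (h σ)
      have h1 : (1 - ζ • D) v = u 0 • y + u 1 • P y := by
        have ey : (1 - ζ • D) (R y) = y := by
          have : ((1 - ζ • D) * R) y = y := by rw [hRinv]; rfl
          exact this
        have ez : (1 - ζ • D) (R (P y)) = P y := by
          have : ((1 - ζ • D) * R) (P y) = P y := by rw [hRinv]; rfl
          exact this
        rw [hv, map_add, map_smul, map_smul, ey, ez]
      have h2 : v - ζ • D v = u 0 • y + u 1 • P y := h1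
      have h3 : D v = ζ⁻¹ • (v - (u 0 • y + u 1 • P y)) := by
        rw [← h2, sub_sub_cancel, smul_smul, inv_mul_cancel₀ hζ, one_smul]
      have g1 : σ * k (P v) - σ ^ 2 * κ * k v = ζ⁻¹ * u 0 := by
        rw [f1]; field_simp
      have g2 : σ * k v = -(ζ⁻¹ * u 1) := by
        rw [f2]; field_simp
      rw [happ, h3, g1, g2]
      module
    obtain ⟨-, h2⟩ := quad_const key
    have e0' : γ = ζ * k (R (D y)) := by rw [hγ]; exact e0
    rw [e0'] at h2
    show κ * k (R (D y)) + ζ * (k (P (R (P y))) * k (R (D y))) - k (P (R y)) * k (R (P y)) = 0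
    rw [← hα, ← hβ, ← hδ]
    have h3 : ζ ^ 2 * (κ * k (R (D y)) + ζ * (β * k (R (D y))) - α * δ) = 0 := by
      linear_combination h2
    exact (mul_eq_zero.mp h3).resolve_left (pow_ne_zero 2 hζ)
  have hcont : Continuous (fun ζ : ℂ => κ * k (Ring.inverse (1 - ζ • D) (D y)) +
        ζ * ((k.comp P) (Ring.inverse (1 - ζ • D) (P y)) *
          k (Ring.inverse (1 - ζ • D) (D y))) -
        (k.comp P) (Ring.inverse (1 - ζ • D) y) * k (Ring.inverse (1 - ζ • D) (P y))) := by
    have h1 := (differentiable_resolvent hD (D y) k).continuous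
    have h2 := (differentiable_resolvent hD (P y) (k.comp P)).continuous
    have h3 := (differentiable_resolvent hD y (k.comp P)).continuous
    have h4 := (differentiable_resolvent hD (P y) k).continuous
    exact ((continuous_const.mul h1).add (continuous_id.mul (h2.mul h1))).sub (h3.mul h4)
  have h0 := eq_zero_of_off_zero hcont hres 0
  simp only [res_zero, zero_mul, add_zero] at h0
  have e3 : k (D y) = κ - k (w y) := by
    have : D y = P y - w y := by rw [hDdef]; rfl
    rw [this, map_sub, hκ]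
  have e4 : (k.comp P) y = κ := by rw [hκ]; rfl
  rw [e3, e4, ← hκ] at h0
  rw [← hκ]
  linear_combination -h0

end Pool.Agent.H.MP_bb4c62_an.helper5.PL
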