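import Pool.Agent.H.MP_bb4c62_an.helper5.PDefs

/-!
The dichotomy for two operators.
-/

namespace Pool.Agent.H.MP_bb4c62_an.helper5.PL

open Pool.Agent.H.MP_bb4c62_an.helper6.NL
open Pool.Agent.H.MP_bb4c62_an.helper6.Perturb
open Pool.Agent.H.MP_bb4c62_an.helper6.Gadgets

variable {X : Type*} [NormedAddCommGroup X] [NormedSpace ℂ X]

theorem p4_shift {N Z : Submodule ℂ X} {T : X →L[ℂ] X} {y z : X} (hNZ : N ≤ Z) (hy : y ∈ Z)
    (hTy : T y ∈ Z) (hz : z ∉ Z) (h : T y ∉ N ⊔ Submodule.span ℂ {y}) :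
    ∃ c : ℂ, c ≠ 0 ∧ T (y + c • z) ∉ N ⊔ Submodule.span ℂ {y + c • z} := by
  by_contra hcon
  push Not at hcon
  obtain ⟨n1, hn1, m1, hm1, e1⟩ := Submodule.mem_sup.mp (hcon 1 one_ne_zero)
  obtain ⟨n2, hn2, m2, hm2, e2⟩ := Submodule.mem_sup.mp (hcon 2 two_ne_zero)
  obtain ⟨b1, rfl⟩ := Submodule.mem_span_singleton.mp hm1
  obtain ⟨b2, rfl⟩ := Submodule.mem_span_singleton.mp hm2
  rw [map_add, map_smul] at e1 e2
  have key : T y = ((2:ℂ) • n1 - n2) + (2 * b1 - b2) • y + (2 * b1 - 2 * b2) • z := by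
    have h0 : T y = (2:ℂ) • (T y + (1:ℂ) • T z) - (T y + (2:ℂ) • T z) := by module
    rw [h0, ← e1, ← e2]; module
  have hn : (2:ℂ) • n1 - n2 ∈ N := N.sub_mem (N.smul_mem _ hn1) hn2
  by_cases hb : b1 = b2
  · apply h
    rw [key, hb, sub_self, zero_smul, add_zero]
    exact Submodule.add_mem_sup hn (Submodule.smul_mem _ _ (Submodule.mem_span_singleton_self y))
  · apply hz
    have hd : (2 * b1 - 2 * b2 : ℂ) ≠ 0 := by
      intro h0
      apply hb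
      linear_combination h0 / 2
    have e : z = (2 * b1 - 2 * b2 : ℂ)⁻¹ • (T y - ((2:ℂ) • n1 - n2) - (2 * b1 - b2) • y) := by
      rw [eq_inv_smul_iff₀ hd]
      rw [key]; abel
    rw [e]
    exact Z.smul_mem _ (Z.sub_mem (Z.sub_mem hTy (hNZ hn)) (Z.smul_mem _ hy))

theorem p4_avoid {N Z : Submodule ℂ X} {v y z : X} {c : ℂ} (hc : c ≠ 0) (hNZ : N ≤ Z)
    (hy : y ∈ Z) (hv : v ∈ Z) (hz : z ∉ Z) (h : v ∉ N) :
    v ∉ N ⊔ Submodule.span ℂ {y + c • z} := by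
  intro hcon
  obtain ⟨n, hn, m, hm, e⟩ := Submodule.mem_sup.mp hcon
  obtain ⟨b, rfl⟩ := Submodule.mem_span_singleton.mp hm
  by_cases hb : b = 0
  · apply h
    rw [← e, hb, zero_smul, add_zero]
    exact hn
  · apply hz
    have hd : b * c ≠ 0 := mul_ne_zero hb hc
    have e' : z = (b * c)⁻¹ • (v - n - b • y) := by
      rw [eq_inv_smul_iff₀ hd, ← e]; module
    rw [e']
    exact Z.smul_mem _ (Z.sub_mem (Z.sub_mem hv (hNZ hn)) (Z.smul_mem _ hy))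

theorem p4_notMem {x y v : X} {k : X →L[ℂ] ℂ} (hx : k x = 0) (hy : k y = 0) (hv : k v ≠ 0) :
    v ∉ Submodule.span ℂ ({x} : Set X) ⊔ Submodule.span ℂ {y} := by
  intro h
  apply hv
  obtain ⟨m, hm, n, hn, rfl⟩ := Submodule.mem_sup.mp h
  obtain ⟨a, rfl⟩ := Submodule.mem_span_singleton.mp hm
  obtain ⟨b, rfl⟩ := Submodule.mem_span_singleton.mp hn
  rw [map_add, map_smul, map_smul, hx, hy, smul_zero, smul_zero, add_zero]

theorem p4_step1 {S w : X →L[ℂ] X} {x : X} {f : X →L[ℂ] ℂ}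
    (hsep : ∀ (M : Submodule ℂ X), M.FG → ∀ v, v ∉ M → ∃ k : X →L[ℂ] ℂ, (∀ m ∈ M, k m = 0) ∧ k v = 1)
    (h : ∀ (y : X) (k : X →L[ℂ] ℂ), f y = 0 → k x = 0 → k y = 0 → k (S y) * k (w y) = 0)
    {y0 y1 : X} (hf0 : f y0 = 0) (hf1 : f y1 = 0)
    {M : Submodule ℂ X} (hM : M.FG) (hx : x ∈ M) (h0 : y0 ∈ M) (h1 : y1 ∈ M)
    (hS : S y0 ∉ M) (hw : w y1 ∉ M) : False := by
  obtain ⟨k2, hk2, e2⟩ := hsep M hM _ hS
  obtain ⟨k3, hk3, e3⟩ := hsep M hM _ hw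
  obtain ⟨k, hk, hkS, hkw⟩ : ∃ k : X →L[ℂ] ℂ, (∀ m ∈ M, k m = 0) ∧ k (S y0) ≠ 0 ∧ k (w y1) ≠ 0 := by
    by_cases ha : k2 (w y1) = 0
    · by_cases hb : k3 (S y0) = 0
      · refine ⟨k2 + k3, fun m hm => ?_, ?_, ?_⟩
        · rw [_root_.add_apply, hk2 m hm, hk3 m hm, add_zero]
        · rw [_root_.add_apply, e2, hb, add_zero]; exact one_ne_zero
        · rw [_root_.add_apply, e3, ha, zero_add]; exact one_ne_zero
      · exact ⟨k3, hk3, hb, by rw [e3]; exact one_ne_zero⟩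
    · exact ⟨k2, hk2, by rw [e2]; exact one_ne_zero, ha⟩
  have a1 : k (w y0) = 0 :=
    (mul_eq_zero.mp (h y0 k hf0 (hk x hx) (hk y0 h0))).resolve_left hkS
  have a2 : k (S y1) = 0 :=
    (mul_eq_zero.mp (h y1 k hf1 (hk x hx) (hk y1 h1))).resolve_right hkw
  have a3 := h (y0 + y1) k (by rw [map_add, hf0, hf1, add_zero]) (hk x hx)
    (hk _ (M.add_mem h0 h1))
  rw [map_add, map_add, map_add, map_add, a1, a2, add_zero, zero_add] at a3
  exact (mul_ne_zero hkS hkw) a3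

theorem p4_five {A : Submodule ℂ X} (hA : A.FG) (a b c d : X) :
    ∃ Z : Submodule ℂ X, Z.FG ∧ A ≤ Z ∧ a ∈ Z ∧ b ∈ Z ∧ c ∈ Z ∧ d ∈ Z := by
  refine ⟨A ⊔ Submodule.span ℂ {a, b, c, d}, hA.sup (Submodule.fg_span (Set.toFinite _)),
    le_sup_left, ?_, ?_, ?_, ?_⟩ <;>
  exact Submodule.mem_sup_right (Submodule.subset_span (by simp))

/-- The dichotomy (`x = 0` or `f = 0` are allowed).

Proof. Suppose `(y0, k0)` violates the first and `(y1, k1)` the second alternative, so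
`S y0 ∉ span {x, y0}` and `w y1 ∉ span {x, y1}`, `f y0 = f y1 = 0`.
Step 1. It is enough to find `y0', y1'` in `ker f` with `S y0' ∉ span {x, y0', y1'}` and
`w y1' ∉ span {x, y0', y1'}`: by `exists_sep_sub` there are `k2, k3` vanishing on this span with
`k2 (S y0') = 1`, `k3 (w y1') = 1`, and one of `k2`, `k3`, `k2 + k3` =: `k` satisfies
`k (S y0') ≠ 0` and `k (w y1') ≠ 0`. The hypothesis at `(y0', k)` gives `k (w y0') = 0`, at `(y1', k)`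
gives `k (S y1') = 0`, and at `(y0' + y1', k)`: `k (S y0') * k (w y1') = 0`, contradiction.
Step 2. Choose `z` in `ker f` outside `span {x, y0, S y0, y1, w y1}` (`big_ker`); for `j = 1` or `j = 2`,
`S (y0 + j z) ∉ span {x, y0 + j z}`: otherwise `S y0 = 2 S (y0 + z) - S (y0 + 2 z)
= (..) x + 2 b1 (y0 + z) - b2 (y0 + 2 z)`, the coefficient `2 b1 - 2 b2` of `z` vanishes and
`S y0 ∈ span {x, y0}`. Put `y0' = y0 + j z`. Then `w y1 ∉ span {x, y0', y1}` (if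
`w y1 = a x + b y0' + c y1` then `b = 0` because of `z`).
Step 3. Choose `z'` in `ker f` outside `span {x, y0', S y0', y1, w y1}`. For `j = 1` or `j = 2`:
`w (y1 + j z') ∉ span {x, y0', y1 + j z'}` (otherwise, as in step 2, `w y1 = 2 w (y1 + z') - w (y1 + 2 z')`
and the coefficient of `z'` vanishes, so `w y1 ∈ span {x, y0', y1}`). Put `y1' = y1 + j z'`. Also
`S y0' ∉ span {x, y0', y1'}` (if `S y0' = a x + b y0' + c y1'` then `c = 0` because of `z'`). -/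
theorem dich (hX : ¬ Module.Finite ℂ X) {S w : X →L[ℂ] X} {x : X} {f : X →L[ℂ] ℂ}
    (h : ∀ (y : X) (k : X →L[ℂ] ℂ), f y = 0 → k x = 0 → k y = 0 → k (S y) * k (w y) = 0) :
    (∀ (y : X) (k : X →L[ℂ] ℂ), f y = 0 → k x = 0 → k y = 0 → k (S y) = 0) ∨
      (∀ (y : X) (k : X →L[ℂ] ℂ), f y = 0 → k x = 0 → k y = 0 → k (w y) = 0) := by
  by_contra hcon
  push Not at hcon
  obtain ⟨⟨y0, k0, hf0, hk0x, hk0y, hk0S⟩, ⟨y1, k1, hf1, hk1x, hk1y, hk1w⟩⟩ := hcon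
  have hS0 := p4_notMem hk0x hk0y hk0S
  have hw1 := p4_notMem hk1x hk1y hk1w
  have hfg : ∀ v : X, (Submodule.span ℂ ({v} : Set X)).FG := fun v => Submodule.fg_span_singleton v
  have hself : ∀ v : X, v ∈ Submodule.span ℂ ({v} : Set X) := fun v =>
    Submodule.mem_span_singleton_self v
  generalize hA : Submodule.span ℂ ({x} : Set X) = A at hS0 hw1
  have hAfg : A.FG := hA ▸ hfg x
  have hxA : x ∈ A := hA ▸ hself x
  -- step 2
  obtain ⟨Z, hZfg, hZA, hZy0, hZS, hZy1, hZw⟩ : ∃ Z : Submodule ℂ X, Z.FG ∧ A ≤ Z ∧ y0 ∈ Z ∧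
      S y0 ∈ Z ∧ y1 ∈ Z ∧ w y1 ∈ Z := p4_five hAfg y0 (S y0) y1 (w y1)
  obtain ⟨z, hfz, hz⟩ := big_ker hX f Z hZfg
  obtain ⟨c, hc, hSc⟩ := p4_shift hZA hZy0 hZS hz hS0
  have hwc : w y1 ∉ A ⊔ Submodule.span ℂ {y1} ⊔ Submodule.span ℂ {y0 + c • z} :=
    p4_avoid hc (sup_le hZA ((Submodule.span_singleton_le_iff_mem _ _).mpr hZy1)) hZy0 hZw hz hw1
  have hfc : f (y0 + c • z) = 0 := by rw [map_add, map_smul, hf0, hfz, smul_zero, add_zero]
  generalize y0 + c • z = y0' at hSc hwc hfc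
  rw [sup_right_comm] at hwc
  -- step 3
  obtain ⟨Z', hZfg', hZA', hZy0', hZS', hZy1', hZw'⟩ : ∃ Z : Submodule ℂ X, Z.FG ∧ A ≤ Z ∧
      y0' ∈ Z ∧ S y0' ∈ Z ∧ y1 ∈ Z ∧ w y1 ∈ Z := p4_five hAfg y0' (S y0') y1 (w y1)
  obtain ⟨z', hfz', hz'⟩ := big_ker hX f Z' hZfg'
  have hN : A ⊔ Submodule.span ℂ {y0'} ≤ Z' :=
    sup_le hZA' ((Submodule.span_singleton_le_iff_mem _ _).mpr hZy0')
  obtain ⟨d, hd, hwd⟩ := p4_shift hN hZy1' hZw' hz' hwc
  have hSd : S y0' ∉ A ⊔ Submodule.span ℂ {y0'} ⊔ Submodule.span ℂ {y1 + d • z'} :=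
    p4_avoid hd hN hZy1' hZS' hz' hSc
  have hfd : f (y1 + d • z') = 0 := by rw [map_add, map_smul, hf1, hfz', smul_zero, add_zero]
  exact p4_step1 (fun M hM v hv => exists_sep_sub hM hv) h hfc hfd ((hAfg.sup (hfg y0')).sup (hfg _))
    (Submodule.mem_sup_left (Submodule.mem_sup_left hxA))
    (Submodule.mem_sup_left (Submodule.mem_sup_right (hself y0')))
    (Submodule.mem_sup_right (hself _)) hSd hwd

end Pool.Agent.H.MP_bb4c62_an.helper5.PL
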