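import Pool.Agent.H.MP_bb4c62_an.helper5.PDefs

/-!
Tame operators, and lines all of whose points are tame.
-/

namespace Pool.Agent.H.MP_bb4c62_an.helper5.PL

open Complex Metric Set Filter Topology
open Pool.Agent.H.MP_bb4c62_an.helper6.NL
open Pool.Agent.H.MP_bb4c62_an.helper6.Perturb
open Pool.Agent.H.MP_bb4c62_an.helper6.Gadgets

variable {X : Type*} [NormedAddCommGroup X] [NormedSpace ℂ X]

/-- Proof: the last lines of `rho_form` (helper6/NK1.lean): `form_of_scalar_mod` with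
`mem_span_pair_of_tests` and `big_ker`, then `nf_lemma` and `form_eigen`. -/
theorem tame_of [CompleteSpace X] (hX : ¬ Module.Finite ℂ X) {x : X} {f : X →L[ℂ] ℂ}
    (hx : x ≠ 0) (hf : f ≠ 0) (hfx : f x = 0) {V : X →L[ℂ] X} (hV : QN V)
    (h : ∀ (y : X) (k : X →L[ℂ] ℂ), f y = 0 → k x = 0 → k y = 0 → k (V y) = 0) :
    Tame x f V := by
  obtain ⟨c, θ, q, hVf⟩ := form_of_scalar_mod hx hf (big_ker hX f)
    (fun y hy => mem_span_pair_of_tests fun k => h y k hy)
  have hF : ten x θ + ten q f ∈ FRk X := (FRk X).add_mem (ten_mem_FRk _ _) (ten_mem_FRk _ _)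
  have hc : c = 0 := by
    refine nf_lemma (w := 0) (β := 0) hX qn_zero hV hF ?_
    rw [hVf, smul_zero, add_zero, add_assoc]
  rw [hc, zero_smul, zero_add] at hVf
  rw [hVf] at hV
  obtain ⟨t1, t2⟩ := form_eigen hx hf hfx hV
  exact ⟨θ, q, hVf, t1, t2⟩

/-- Proof: word for word the proof of `line_fixed` in helper6/NK4.lean after its first line: there
`hform` is our hypothesis, `hline`, `h0m`, `hAm` are our hypotheses. (Copy it; the three point sets
`Φ '' m` etc. are treated with `IsLine.image`, `autos_mixed`, `autos_scale`, `autos_shear`,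
`plane_lemma`, `line_span`, `normal_form`.) -/
theorem tame_line [CompleteSpace X] {v : Fin 3 → X}
    (hv3 : LinearIndependent ℂ v) {m : Set (X →L[ℂ] X)} (hline : IsLine m)
    {x : X} {f : X →L[ℂ] ℂ} (hx : x ≠ 0) (hf : f ≠ 0) (hfx : f x = 0)
    (h0m : (0 : X →L[ℂ] X) ∈ m) (hAm : ten x f ∈ m) (hform : ∀ V ∈ m, Tame x f V) :
    m = rline 0 (ten x f) := by
  have hA0 : ten x f ≠ 0 := by
    rw [Ne, ten_eq_zero_iff]; push Not; exact ⟨hx, hf⟩
  suffices hsub : m ⊆ rline 0 (ten x f) by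
    obtain ⟨a, b, c, ha, hb, hc, hab, hac, hbc⟩ := exists_three hline.inf
    exact IsLine.eq_of_three hline (isLine_rline hv3 hx hf hfx 0) ha hb hc (hsub ha) (hsub hb)
      (hsub hc) hab hac hbc
  by_contra hnsub
  rw [Set.not_subset] at hnsub
  obtain ⟨V, hVm, hVn⟩ := hnsub
  have hne : ∀ z : ℂ, V ≠ z • ten x f := by
    intro z hz
    exact hVn ⟨z, by simp [hz]⟩
  obtain ⟨θ0, q0, hV0f, hθ0x, hfq0⟩ := hform V hVm
  obtain ⟨θ, q, rfl, hθx, hfq, hθ, hq, hne2⟩ := normal_form hx hf hfx hθ0x hfq0 hV0f hne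
  have hVA : ten x f ≠ ten x θ + ten q f := by
    intro h; exact hne 1 (by rw [one_smul, h])
  have hV0 : ten x θ + ten q f ≠ 0 := by
    intro h; exact hne 0 (by rw [zero_smul, h])
  -- three points on an affine line
  have hthree : ∀ (B : X →L[ℂ] X) (e1 e2 e3 : ℂ), B + e1 • ten x f ∈ m → B + e2 • ten x f ∈ m →
      B + e3 • ten x f ∈ m → e1 ≠ e2 → e1 ≠ e3 → e2 ≠ e3 → False := by
    intro B e1 e2 e3 m1 m2 m3 n12 n13 n23
    have inj : ∀ s t : ℂ, s ≠ t → B + s • ten x f ≠ B + t • ten x f := by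
      intro s t hst h
      have h2 : (s - t) • ten x f = 0 := by
        rw [sub_smul, sub_eq_zero]; exact add_left_cancel h
      rcases smul_eq_zero.mp h2 with h3 | h3
      · exact hst (sub_eq_zero.mp h3)
      · exact hA0 h3
    have heq := IsLine.eq_of_three hline (isLine_rline hv3 hx hf hfx B) m1 m2 m3
      (rline_mem _) (rline_mem _) (rline_mem _) (inj _ _ n12) (inj _ _ n13) (inj _ _ n23)
    obtain ⟨z, hz⟩ : (0 : X →L[ℂ] X) ∈ rline B (ten x f) := by rw [← heq]; exact h0m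
    obtain ⟨z', hz'⟩ : ten x θ + ten q f ∈ rline B (ten x f) := by rw [← heq]; exact hVm
    apply hne (z' - z)
    rw [← hz', sub_smul]
    have hB : B = - (z • ten x f) := eq_neg_of_add_eq_zero_left hz
    show B + z' • ten x f = _
    rw [hB]; abel
  -- everything lies in the span
  have hspan : ∀ V' ∈ m, ∃ a e : ℂ, V' = a • (ten x θ + ten q f) + e • ten x f := by
    intro V' hV'
    obtain ⟨θ', q', hV'f, hθ'x, hfq'⟩ := hform V' hV'
    rw [hV'f] at hV'
    obtain ⟨a, a', e, hae⟩ := line_span hline hx hf hfx hθx hfq hθ h0m hAm hVm hVA hV0 hV' hθ'x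
      hfq'
    rw [hV'f]
    by_cases hθ0 : θ = 0
    · exact ⟨a', e, by rw [hae, hθ0, ten_zero_right, zero_add, smul_zero, zero_add]⟩
    by_cases hq0 : q = 0
    · exact ⟨a, e, by rw [hae, hq0, ten_zero_left, add_zero, smul_zero, add_zero]⟩
    have hθ' := hθ.resolve_left hθ0
    have hq' := hq.resolve_left hq0
    by_cases haa : a = a'
    · exact ⟨a, e, by rw [hae, ← haa]; module⟩
    exfalso
    rw [hae] at hV'
    have hmv : ∀ μ : ℂ, (a • ten x θ + a' • ten q f + e • ten x f) + μ • ten x f ∈ m := by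
      intro μ
      obtain ⟨Φ, hΦ, hΦ'⟩ := autos_mixed hx hf hfx hθx hfq hθ' hq' (μ / (a - a'))
      have hl' : IsLine (Φ '' m) := IsLine.image hΦ hline
      have p0 : (0 : X →L[ℂ] X) ∈ Φ '' m := ⟨0, h0m, by simpa using hΦ' 0 0 0⟩
      have pA : ten x f ∈ Φ '' m := ⟨ten x f, hAm, by simpa using hΦ' 0 0 1⟩
      have pV : ten x θ + ten q f ∈ Φ '' m := ⟨_, hVm, by simpa using hΦ' 1 1 0⟩
      have heq := IsLine.eq_of_three hl' hline p0 pA pV h0m hAm hVm hA0.symm hV0.symm hVA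
      have := Set.mem_image_of_mem Φ hV'
      rw [heq, hΦ', div_mul_cancel₀ _ (sub_ne_zero.mpr haa)] at this
      convert this using 1
      module
    exact hthree _ 0 1 2 (hmv 0) (hmv 1) (hmv 2) (by norm_num) (by norm_num) (by norm_num)
  have hinj : ∀ a e a' e' : ℂ, a • (ten x θ + ten q f) + e • ten x f =
      a' • (ten x θ + ten q f) + e' • ten x f → a = a' ∧ e = e' := by
    intro a e a' e' h
    have h2 : (a - a') • (ten x θ + ten q f) = (e' - e) • ten x f := by
      rw [sub_smul, sub_smul, sub_eq_sub_iff_add_eq_add, h]; abel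
    by_cases haa : a = a'
    · refine ⟨haa, ?_⟩
      rw [haa, sub_self, zero_smul] at h2
      rcases smul_eq_zero.mp h2.symm with h3 | h3
      · exact (sub_eq_zero.mp h3).symm
      · exact absurd h3 hA0
    · exfalso
      apply hne ((a - a')⁻¹ * (e' - e))
      rw [mul_smul, ← h2, smul_smul, inv_mul_cancel₀ (sub_ne_zero.mpr haa), one_smul]
  -- the plane lemma
  set P : ℂ × ℂ → (X →L[ℂ] X) := fun p => p.1 • (ten x θ + ten q f) + p.2 • ten x f with hP
  refine plane_lemma {p | P p ∈ m} ?_ ?_ ?_ ?_ ?_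
  · apply Set.Infinite.of_image P
    convert hline.inf using 1
    ext V'
    constructor
    · rintro ⟨p, hp, rfl⟩; exact hp
    · intro hV'
      obtain ⟨a, e, rfl⟩ := hspan V' hV'
      exact ⟨(a, e), hV', rfl⟩
  · show (0 : ℂ) • _ + (0 : ℂ) • _ ∈ m
    rw [zero_smul, zero_smul, add_zero]; exact h0m
  · show (0 : ℂ) • _ + (1 : ℂ) • _ ∈ m
    rw [zero_smul, one_smul, zero_add]; exact hAm
  · intro a e1 e2 e3 m1 m2 m3
    by_contra hcon
    push Not at hcon
    exact hthree _ e1 e2 e3 m1 m2 m3 hcon.1 hcon.2.1 hcon.2.2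
  · intro α β γ l hl p1 p2 p3 m1 m2 m3 n12 n13 n23 g1 g2 g3 p hp
    obtain ⟨Φ, hΦ, hΦ'⟩ := autos_scale hx hf hfx hθx hfq hθ hq hl
    obtain ⟨U, hU, hU'⟩ := autos_shear hx hf hfx hθx hfq hθ hq hne2 (β / l)
    have hΨ := (isGIso_trans (α • (ten x θ + ten q f) + γ • ten x f)).comp (hΦ.comp hU)
    have hΨ' : ∀ p : ℂ × ℂ, ((fun T => (α • (ten x θ + ten q f) + γ • ten x f) + T) ∘ (Φ ∘ U))
        (P p) = P (p.1 + α, l * p.2 + β * p.1 + γ) := by
      intro p
      show (α • (ten x θ + ten q f) + γ • ten x f) + Φ (U (p.1 • (ten x θ + ten q f) +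
        p.2 • ten x f)) = (p.1 + α) • (ten x θ + ten q f) + (l * p.2 + β * p.1 + γ) • ten x f
      rw [hU', hΦ']
      have : l * (p.2 + β / l * p.1) = l * p.2 + β * p.1 := by field_simp
      rw [this]
      module
    set Ψ := (fun T => (α • (ten x θ + ten q f) + γ • ten x f) + T) ∘ (Φ ∘ U) with hΨd
    have hPinj : ∀ p p' : ℂ × ℂ, p ≠ p' → P p ≠ P p' := by
      intro p p' hpp h
      obtain ⟨h1, h2⟩ := hinj _ _ _ _ h
      exact hpp (Prod.ext h1 h2)
    have hl' : IsLine (Ψ '' m) := IsLine.image hΨ hline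
    have heq := IsLine.eq_of_three hl' hline (Set.mem_image_of_mem Ψ m1)
      (Set.mem_image_of_mem Ψ m2) (Set.mem_image_of_mem Ψ m3) (by rw [hΨ']; exact g1)
      (by rw [hΨ']; exact g2) (by rw [hΨ']; exact g3)
      (fun h => hPinj _ _ n12 (hΨ.1.1 h)) (fun h => hPinj _ _ n13 (hΨ.1.1 h))
      (fun h => hPinj _ _ n23 (hΨ.1.1 h))
    have := Set.mem_image_of_mem Ψ (show P p ∈ m from hp)
    rw [heq, hΨ'] at this
    exact this

end Pool.Agent.H.MP_bb4c62_an.helper5.PL
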