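import Pool.Agent.H.MP_bb4c62_an.helper5.P2

/-!
If all operators in `CC (x ⊗ f)` are tame then `CC (x ⊗ f)` is contained in `CC (s • x ⊗ f)`.
-/

namespace Pool.Agent.H.MP_bb4c62_an.helper5.PL

open Pool.Agent.H.MP_bb4c62_an.helper6.NL
open Pool.Agent.H.MP_bb4c62_an.helper6.Perturb
open Pool.Agent.H.MP_bb4c62_an.helper6.Gadgets

variable {X : Type*} [NormedAddCommGroup X] [NormedSpace ℂ X]

/-- Proof: as `autos_scale` (helper6/NK2.lean), but keep the explicit form: with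
`S = 1 + (l - 1) • ten x g + (l⁻¹ - 1) • ten z f`, `R = 1 + (l⁻¹ - 1) • ten x g + (l - 1) • ten z f`
and `c = l⁻¹`. -/
theorem autos_scale_lin {x q : X} {f θ : X →L[ℂ] ℂ} (hx : x ≠ 0) (hf : f ≠ 0) (hfx : f x = 0)
    (hθx : θ x = 0) (hfq : f q = 0) (hθ : θ = 0 ∨ ∀ c : ℂ, θ ≠ c • f)
    (hq : q = 0 ∨ ∀ c : ℂ, q ≠ c • x) {l : ℂ} (hl : l ≠ 0) :
    ∃ S R : X →L[ℂ] X, S * R = 1 ∧ R * S = 1 ∧
      l⁻¹ • (S * (ten x θ + ten q f) * R) = ten x θ + ten q f ∧
      l⁻¹ • (S * ten x f * R) = l • ten x f := by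
  obtain ⟨z, hfz, hθz⟩ : ∃ z, f z = 1 ∧ θ z = 0 := by
    rcases hθ with h | h
    · obtain ⟨z, hz⟩ := exists_ap hf
      exact ⟨z, hz, by rw [h]; rfl⟩
    · exact (exists_sep hf (by rintro ⟨c, hc⟩; exact h c hc)).2
  have hxM : x ∉ Submodule.span ℂ ({q, z} : Set X) := by
    intro hm
    obtain ⟨a, b, hab⟩ := Submodule.mem_span_pair.mp hm
    have h1 : f (a • q + b • z) = 0 := by rw [hab, hfx]
    rw [map_add, map_smul, map_smul, hfq, hfz] at h1
    have hb : b = 0 := by simpa using h1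
    rw [hb, zero_smul, add_zero] at hab
    have ha : a ≠ 0 := by
      rintro rfl; rw [zero_smul] at hab; exact hx hab.symm
    rcases hq with h | h
    · rw [h, smul_zero] at hab; exact hx hab.symm
    · apply h a⁻¹
      rw [← hab, smul_smul, inv_mul_cancel₀ ha, one_smul]
  obtain ⟨g, hg0, hgx⟩ := exists_sep_sub (Submodule.fg_span (Set.toFinite _)) hxM
  have hgq : g q = 0 := hg0 q (Submodule.subset_span (by simp))
  have hgz : g z = 0 := hg0 z (Submodule.subset_span (by simp))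
  have s1 := diag_mul hgx hgz hfx hfz (l := l) (l' := l⁻¹) (mul_inv_cancel₀ hl)
  have s2 := diag_mul hgx hgz hfx hfz (l := l⁻¹) (l' := l) (inv_mul_cancel₀ hl)
  set S : X →L[ℂ] X := 1 + (l - 1) • ten x g + (l⁻¹ - 1) • ten z f with hS
  set R : X →L[ℂ] X := 1 + (l⁻¹ - 1) • ten x g + (l - 1) • ten z f with hR
  have hSa : ∀ v, S v = v + (l - 1) • g v • x + (l⁻¹ - 1) • f v • z := fun v => rfl
  have hRa : ∀ v, R v = v + (l⁻¹ - 1) • g v • x + (l - 1) • f v • z := fun v => rfl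
  have hSx : S x = l • x := by rw [hSa, hgx, hfx]; module
  have hSq : S q = q := by rw [hSa, hgq, hfq]; module
  have hfR : f.comp R = l • f := by
    ext v
    show f (R v) = l * f v
    rw [hRa]
    simp only [map_add, map_smul, hfx, hfz, smul_eq_mul]; ring
  have hθR : θ.comp R = θ := by
    ext v
    show θ (R v) = θ v
    rw [hRa]
    simp only [map_add, map_smul, hθx, hθz, smul_eq_mul]; ring
  refine ⟨S, R, s1, s2, ?_, ?_⟩
  · rw [mul_add S (ten x θ) (ten q f), add_mul (S * ten x θ) (S * ten q f) R, conj_ten, conj_ten,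
      hSx, hSq, hfR, hθR, ten_smul_left, ten_smul_right, ← smul_add, smul_smul,
      inv_mul_cancel₀ hl, one_smul]
  · rw [conj_ten, hSx, hfR, ten_smul_left, ten_smul_right, smul_smul, inv_mul_cancel₀ hl, one_smul]

/-- Proof. If `S = z • ten x f`: `CC_ten` for `ten x (s • f)` (`ten_smul_right`). Otherwise
`normal_form` (helper6/NK2.lean) and `autos_scale_lin` with `l = s`, and `CC_lin`. -/
theorem CC_scale [CompleteSpace X] (hX : ¬ Module.Finite ℂ X) {x : X} {f : X →L[ℂ] ℂ}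
    (hx : x ≠ 0) (hf : f ≠ 0) (hfx : f x = 0)
    (htame : ∀ S ∈ CC (ten x f), Tame x f S) {s : ℂ} (hs : s ≠ 0) {S : X →L[ℂ] X}
    (hS : S ∈ CC (ten x f)) : S ∈ CC (s • ten x f) := by
  by_cases hz : ∃ z : ℂ, S = z • ten x f
  · obtain ⟨z, rfl⟩ := hz
    have h1 := CC_ten hX hx (smul_ne_zero hs hf) (f := s • f)
      (by show s * f x = 0; rw [hfx, mul_zero]) (z * s⁻¹)
    rw [ten_smul_right, smul_smul, mul_assoc,
      inv_mul_cancel₀ hs, mul_one] at h1
    exact h1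
  · obtain ⟨θ, q, hV, hθx, hfq⟩ := htame S hS
    obtain ⟨θ', q', hV', hθx', hfq', hθ', hq', -⟩ :=
      normal_form hx hf hfx hθx hfq hV (fun z h => hz ⟨z, h⟩)
    obtain ⟨T, R, h1, h2, h3, h4⟩ := autos_scale_lin hx hf hfx hθx' hfq' hθ' hq' hs
    have h5 := CC_lin h1 h2 (inv_ne_zero hs) hS
    rw [hV', h3, h4] at h5
    rw [hV']
    exact h5

end Pool.Agent.H.MP_bb4c62_an.helper5.PL
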