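import Pool.Agent.H.MP_bb4c62_an.helper5.P3
import Pool.Agent.H.MP_bb4c62_an.helper5.P4
import Pool.Agent.H.MP_bb4c62_an.helper5.P5
import Pool.Agent.H.MP_bb4c62_an.helper5.P6

/-!
The image of a rank one line through `0` is a group.
-/

namespace Pool.Agent.H.MP_bb4c62_an.helper5.PL

open Pool.Agent.H.MP_bb4c62_an.helper6.NL
open Pool.Agent.H.MP_bb4c62_an.helper6.Perturb
open Pool.Agent.H.MP_bb4c62_an.helper6.Gadgets

variable {X : Type*} [NormedAddCommGroup X] [NormedSpace ℂ X]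
variable {Y : Type*} [NormedAddCommGroup Y] [NormedSpace ℂ Y]

theorem p7_prod [CompleteSpace X] {x : X} {f : X →L[ℂ] ℂ} {K : Set (X →L[ℂ] X)}
    (hK : IsPLine K) (hN : ten x f ∈ K) {w : X →L[ℂ] X} (hw : w ∈ K) {S : X →L[ℂ] X}
    (hS : S ∈ CC (ten x f)) {y : X} {k : X →L[ℂ] ℂ} (hfy : f y = 0) (hkx : k x = 0)
    (hky : k y = 0) : k (S y) * k (w y) = 0 := by
  have h : ∀ σ : ℂ, QN ((1 + σ • ten y k) * S * (1 - σ • ten y k) - -w) := by
    intro σ
    set L : X →L[ℂ] X := σ • ten y k with hL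
    have hLL : L * L = 0 := by rw [hL, smul_mul_smul_comm, ten_sq hky, smul_zero]
    have hLN : L * ten x f = 0 := by
      rw [hL, smul_mul_assoc, mul_ten, ten_apply, hkx, zero_smul, ten_zero_left, smul_zero]
    have hNL : ten x f * L = 0 := by
      rw [hL, mul_smul_comm, mul_ten, ten_apply, hfy, zero_smul, ten_zero_left, smul_zero]
    obtain ⟨h1, h2, h3⟩ := conj_sq (w := ten x f) hLL
    have h4 := CC_lin h1 h2 one_ne_zero hS
    rw [h3, hLN, hNL, zero_mul, one_smul, one_smul, sub_zero, sub_zero, add_zero] at h4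
    rw [sub_neg_eq_add]
    exact h4 K hK hN w hw
  have := prod_trick hky h
  rw [ContinuousLinearMap.neg_apply, map_neg, neg_mul, neg_eq_zero] at this
  rw [mul_comm]; exact this

/-- Either all points of all plus-lines through `x ⊗ f` are tame or all operators in `CC (x ⊗ f)`
are tame.

Proof. For `w` in a plus-line `K` through `N = ten x f` and `S ∈ CC N` and `f y = 0`, `k x = 0`, `k y = 0`:
`1 + σ • ten y k` commutes with `N`, so `(1 + σ • ten y k) * S * (1 - σ • ten y k) ∈ CC N` (`CC_lin` with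
`c = 1`, `conj_sq`), and `prod_trick` with `P = S` and `-w` in place of `w` gives
`k (w y) * k (S y) = 0`. If some `w` is not tame then `dich` and `tame_of` (`CC_qn`, `IsPLine.qn`) show
that all `S ∈ CC N` are tame. -/
theorem tame_dich [CompleteSpace X] (hX : ¬ Module.Finite ℂ X) {x : X} {f : X →L[ℂ] ℂ}
    (hx : x ≠ 0) (hf : f ≠ 0) (hfx : f x = 0) :
    (∀ K : Set (X →L[ℂ] X), IsPLine K → ten x f ∈ K → ∀ w ∈ K, Tame x f w) ∨
      (∀ S ∈ CC (ten x f), Tame x f S) := by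
  by_cases hall : ∀ K : Set (X →L[ℂ] X), IsPLine K → ten x f ∈ K → ∀ w ∈ K, Tame x f w
  · exact Or.inl hall
  right
  push Not at hall
  obtain ⟨K, hK, hN, w, hw, hnt⟩ := hall
  intro S hS
  rcases dich hX (S := S) (w := w) (x := x) (f := f)
    (fun y k hfy hkx hky => p7_prod hK hN hw hS hfy hkx hky) with h | h
  · exact tame_of hX hx hf hfx (CC_qn hX hx hf hfx hS) h
  · exact absurd (tame_of hX hx hf hfx (hK.qn hw) h) hnt

/-- Proof. `N = ten x f`, `A = φ N`, `m = φ '' rline 0 N`. With `ψ` the inverse of `φ`,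
`M = ψ '' ((fun T => A - T) '' m)` is a plus-line through `N` (`N = ψ (A - φ 0)`), by `isPLine_rline`,
`IsPLine.image_plus`, `IsPLine.refl`. Its points are tame: first case of `tame_dich` clear; in the
second case let `φ V = A - φ (s • N)`. If `s = 0` then `V = N` (tame: `θ = f`, `q = 0`). If `s ≠ 0`:
`-A = -A - 0 ∈ CC A` (`CC_zero`, `CC_refl`), so `ψ (-A) ∈ CC N` (`CC_image`), so `ψ (-A) ∈ CC (s • N)`
(`CC_scale`), `-A ∈ CC (φ (s • N))`, `A - φ (s • N) = -φ (s • N) - (-A) ∈ CC (φ (s • N))` (`CC_refl`),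
so `V ∈ CC (s • N)`, `s⁻¹ • V ∈ CC N` (`CC_smul`) is tame, so `V` is tame.
By `tame_line`, `M = rline 0 N`; apply `φ`. -/
theorem refl_image [CompleteSpace X] (hX : ¬ Module.Finite ℂ X)
    {φ : (X →L[ℂ] X) → (Y →L[ℂ] Y)} (h : IsPlus φ) {x : X} {f : X →L[ℂ] ℂ}
    (hx : x ≠ 0) (hf : f ≠ 0) (hfx : f x = 0) :
    (fun T => φ (ten x f) - T) '' (φ '' rline 0 (ten x f)) = φ '' rline 0 (ten x f) := by
  obtain ⟨ψ, hψ, h1, h2⟩ := h.exists_inv
  obtain ⟨v, hv⟩ := exists_li3 hX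
  set N : X →L[ℂ] X := ten x f with hNdef
  have hR : IsPLine (rline 0 N) := isPLine_rline hX hx hf hfx
  have hNR : N ∈ rline 0 N := ⟨1, by simp⟩
  have h0R : (0 : X →L[ℂ] X) ∈ rline 0 N := ⟨0, by simp⟩
  have hm : IsPLine (φ '' rline 0 N) := hR.image_plus h
  have hAm : φ N ∈ φ '' rline 0 N := ⟨N, hNR, rfl⟩
  have hm' : IsPLine ((fun T => φ N - T) '' (φ '' rline 0 N)) := hm.refl hAm
  have hM : IsPLine (ψ '' ((fun T => φ N - T) '' (φ '' rline 0 N))) := hm'.image_plus hψ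
  have hNM : N ∈ ψ '' ((fun T => φ N - T) '' (φ '' rline 0 N)) :=
    ⟨φ N, ⟨0, ⟨0, h0R, h.zero⟩, by simp⟩, h1 N⟩
  have hψA : ψ (φ N) = N := h1 N
  have hform : ∀ V ∈ ψ '' ((fun T => φ N - T) '' (φ '' rline 0 N)), Tame x f V := by
    rcases tame_dich hX hx hf hfx with hd | hd
    · exact hd _ hM hNM
    · rintro V ⟨_, ⟨_, ⟨_, ⟨s, rfl⟩, rfl⟩, rfl⟩, rfl⟩
      by_cases hs : s = 0
      · subst hs
        refine ⟨f, 0, ?_, hfx, map_zero f⟩
        simp only [zero_smul, add_zero, h.zero, sub_zero, h1]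
        rw [ten_zero_left, add_zero]
      · have e0 : (fun z : ℂ => (0 : X →L[ℂ] X) + z • N) s = s • N := by simp
        rw [e0]
        have a1 : -φ N ∈ CC (φ N) := by
          have := CC_refl (CC_zero (φ N))
          rwa [sub_zero] at this
        have a2 : ψ (-φ N) ∈ CC N := by
          have := (CC_image hψ (N := φ N) (S := -φ N)).2 a1
          rwa [hψA] at this
        have a3 : ψ (-φ N) ∈ CC (s • N) := CC_scale hX hx hf hfx hd hs a2
        have a4 : -φ N ∈ CC (φ (s • N)) := by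
          have := (CC_image h (N := s • N) (S := ψ (-φ N))).2 a3
          rwa [h2] at this
        have a5 : φ N - φ (s • N) ∈ CC (φ (s • N)) := by
          have := CC_refl a4
          have e : -φ (s • N) - -φ N = φ N - φ (s • N) := by abel
          rwa [e] at this
        have a6 : ψ (φ N - φ (s • N)) ∈ CC (s • N) := by
          have := (CC_image hψ (N := φ (s • N)) (S := φ N - φ (s • N))).2 a5
          rwa [h1] at this
        have a7 := CC_smul (inv_ne_zero hs) a6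
        rw [smul_smul, inv_mul_cancel₀ hs, one_smul] at a7
        obtain ⟨θ, q, e1, hθ, hq⟩ := hd _ a7
        refine ⟨s • θ, s • q, ?_, ?_, ?_⟩
        · show ψ (φ N - φ (s • N)) = _
          rw [ten_smul_right, ten_smul_left, ← smul_add, ← e1, smul_smul, mul_inv_cancel₀ hs,
            one_smul]
        · rw [ContinuousLinearMap.smul_apply, hθ, smul_zero]
        · rw [map_smul, hq, smul_zero]
  have hfin := tame_line hv hM.isLine hx hf hfx hM.zero hNM hform
  have h3 : φ '' (ψ '' ((fun T => φ N - T) '' (φ '' rline 0 N))) = φ '' rline 0 N := by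
    rw [hfin]
  have h4 : φ '' (ψ '' ((fun T => φ N - T) '' (φ '' rline 0 N)))
      = (fun T => φ N - T) '' (φ '' rline 0 N) := by
    rw [← Set.image_comp φ ψ]
    have : φ ∘ ψ = id := funext h2
    rw [this, Set.image_id]
  exact h4.symm.trans h3

theorem p7_rline_smul {N : X →L[ℂ] X} {s : ℂ} (hs : s ≠ 0) : rline 0 (s • N) = rline 0 N := by
  ext T
  constructor
  · rintro ⟨z, rfl⟩
    exact ⟨z * s, by simp only [mul_smul]⟩
  · rintro ⟨z, rfl⟩
    refine ⟨z * s⁻¹, ?_⟩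
    simp only [smul_smul]
    rw [mul_assoc, inv_mul_cancel₀ hs, mul_one]

theorem p7_sub [CompleteSpace X] (hX : ¬ Module.Finite ℂ X)
    {φ : (X →L[ℂ] X) → (Y →L[ℂ] Y)} (h : IsPlus φ) {x : X} {f : X →L[ℂ] ℂ}
    (hx : x ≠ 0) (hf : f ≠ 0) (hfx : f x = 0) {g g' : Y →L[ℂ] Y}
    (hg : g ∈ φ '' rline 0 (ten x f)) (hg0 : g ≠ 0) (hg' : g' ∈ φ '' rline 0 (ten x f)) :
    g - g' ∈ φ '' rline 0 (ten x f) := by
  obtain ⟨_, ⟨s, rfl⟩, rfl⟩ := hg
  have e0 : (fun z : ℂ => (0 : X →L[ℂ] X) + z • ten x f) s = s • ten x f := by simp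
  rw [e0] at hg0 ⊢
  have hs : s ≠ 0 := by
    rintro rfl
    exact hg0 (by rw [zero_smul, h.zero])
  have e1 : s • ten x f = ten (s • x) f := (ten_smul_left s x f).symm
  have h1 := refl_image hX h (x := s • x) (f := f) (smul_ne_zero hs hx) hf
    (by rw [map_smul, hfx, smul_zero])
  rw [← e1, p7_rline_smul hs] at h1
  rw [← h1]
  exact ⟨g', hg', rfl⟩

/-- Proof. Let `m = φ '' rline 0 (ten x f)`. By `refl_image` for `s • ten x f` (`s ≠ 0`, same line):
(1) `g ∈ m`, `g ≠ 0`, `h ∈ m` imply `g - h ∈ m` (`φ 0 = 0`). Let `u ∈ m`, `u ≠ 0` (`u = 0` clear). Since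
`m` is infinite choose `g ≠ h` in `m`, both nonzero, `d = g - h`. Then `d ∈ m`, `-d = h - g ∈ m`,
`u - d ∈ m` and `-u = -d - (u - d) ∈ m`. -/
theorem neg_image [CompleteSpace X] (hX : ¬ Module.Finite ℂ X)
    {φ : (X →L[ℂ] X) → (Y →L[ℂ] Y)} (h : IsPlus φ) {x : X} {f : X →L[ℂ] ℂ}
    (hx : x ≠ 0) (hf : f ≠ 0) (hfx : f x = 0) {U : Y →L[ℂ] Y}
    (hU : U ∈ φ '' rline 0 (ten x f)) : -U ∈ φ '' rline 0 (ten x f) := by
  by_cases hU0 : U = 0
  · subst hU0
    rwa [neg_zero]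
  have hinf : (φ '' rline 0 (ten x f)).Infinite :=
    ((isPLine_rline hX hx hf hfx).image_plus h).qline.inf
  have key := fun {a b : Y →L[ℂ] Y} (ha : a ∈ φ '' rline 0 (ten x f)) (ha0 : a ≠ 0)
    (hb : b ∈ φ '' rline 0 (ten x f)) => p7_sub hX h hx hf hfx ha ha0 hb
  obtain ⟨g, hg, hg0⟩ := (hinf.sdiff (Set.finite_singleton 0)).nonempty
  obtain ⟨g', hg', hg1⟩ := (hinf.sdiff (Set.toFinite {0, g})).nonempty
  have hg0' : g ≠ 0 := fun e => hg0 (by rw [e]; exact Set.mem_singleton 0)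
  have hg10 : g' ≠ 0 := fun e => hg1 (by rw [e]; exact Set.mem_insert 0 _)
  have hg1g : g' ≠ g := fun e => hg1 (by rw [e]; exact Set.mem_insert_of_mem 0 rfl)
  have hd : g - g' ∈ φ '' rline 0 (ten x f) := key hg hg0' hg'
  have hd' : g' - g ∈ φ '' rline 0 (ten x f) := key hg' hg10 hg
  have hud : U - (g - g') ∈ φ '' rline 0 (ten x f) := key hU hU0 hd
  have hfin := key hd' (sub_ne_zero.2 hg1g) hud
  have e : g' - g - (U - (g - g')) = -U := by abel
  rwa [e] at hfin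

end Pool.Agent.H.MP_bb4c62_an.helper5.PL
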