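import Pool.Agent.H.MP_bb4c62_an.helper5.P7

/-!
The map `ε` with `φ (-ε T) = -φ T` fixes the rank one nilpotents.
-/

namespace Pool.Agent.H.MP_bb4c62_an.helper5.PL

open Pool.Agent.H.MP_bb4c62_an.helper6.NL
open Pool.Agent.H.MP_bb4c62_an.helper6.Perturb
open Pool.Agent.H.MP_bb4c62_an.helper6.Gadgets

variable {X : Type*} [NormedAddCommGroup X] [NormedSpace ℂ X]
variable {Y : Type*} [NormedAddCommGroup Y] [NormedSpace ℂ Y]

theorem p8_ten_sub (x : X) (g h : X →L[ℂ] ℂ) : ten x (g - h) = ten x g - ten x h := by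
  ext v
  simp only [ten_apply, ContinuousLinearMap.sub_apply, sub_smul]

/-- Proof: `ε T = -ψ (-φ T)` with `ψ` the inverse of `φ`. -/
theorem exists_sa {φ : (X →L[ℂ] X) → (Y →L[ℂ] Y)} (h : IsPlus φ) :
    ∃ ε : (X →L[ℂ] X) → (X →L[ℂ] X), IsSA ε ∧ ∀ T, φ (-(ε T)) = -φ T := by
  obtain ⟨ψ, hψ, h1, h2⟩ := h.exists_inv
  refine ⟨fun T => -ψ (-φ T), ⟨?_, ?_⟩, ?_⟩
  · constructor
    · intro a b hab
      have e1 : -ψ (-φ a) = -ψ (-φ b) := hab
      exact h.bij.1 (neg_injective (hψ.bij.1 (neg_injective e1)))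
    · intro U
      obtain ⟨V, hV⟩ := hψ.bij.2 (-U)
      obtain ⟨T, hT⟩ := h.bij.2 (-V)
      refine ⟨T, ?_⟩
      show -ψ (-φ T) = U
      rw [hT, neg_neg, hV, neg_neg]
  · intro T S
    show QN (-ψ (-φ T) - S) ↔ QN (T - -ψ (-φ S))
    have e1 : -ψ (-φ T) - S = -(ψ (-φ T) + S) := by abel
    rw [e1, qn_neg_iff, ← h.qn, h2, sub_neg_eq_add, ← h.qn, h2]
    have e2 : -φ T + φ S = -(φ T + -φ S) := by abel
    rw [e2, qn_neg_iff]
  · intro T
    show φ (- -ψ (-φ T)) = -φ T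
    rw [neg_neg, h2]

/-- Proof: `(ε, ε⁻¹)` is a pair. -/
theorem IsSA.qline {ε : (X →L[ℂ] X) → (X →L[ℂ] X)} (h : IsSA ε) {m : Set (X →L[ℂ] X)}
    (hm : IsQLine m) : IsQLine (ε '' m) := by
  obtain ⟨e, he⟩ : ∃ e : (X →L[ℂ] X) ≃ (X →L[ℂ] X), ∀ T, e T = ε T :=
    ⟨Equiv.ofBijective ε h.bij, fun _ => rfl⟩
  have hp : IsPair ε (fun S => e.symm S) := by
    refine ⟨h.bij, e.symm.bijective, fun T S => ?_⟩
    rw [h.qn, ← he, e.apply_symm_apply]
  exact hm.image hp

/-- Quasi-lines inside `{x ⊗ g : g x = 0}` are rank one lines.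

Proof. `K` is a clique, so a line. Let `p, r` be two different points of `K`, `r - p = ten x g`. The
line `(fun T => -p + T) '' K` (`isGIso_trans`, `IsLine.image`) contains `0` and `ten x g` and all its
points are `ten x h` with `h x = 0`, which are tame for `(x, g)` (`θ = h`, `q = 0`). `tame_line`. -/
theorem qline_in_plane [CompleteSpace X] (hX : ¬ Module.Finite ℂ X) {K : Set (X →L[ℂ] X)}
    (hK : IsQLine K) {x : X} (hx : x ≠ 0)
    (h : ∀ V ∈ K, ∃ g : X →L[ℂ] ℂ, g x = 0 ∧ V = ten x g) :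
    ∃ p g : X →L[ℂ] ℂ, p x = 0 ∧ g x = 0 ∧ g ≠ 0 ∧ K = rline (ten x p) (ten x g) := by
  obtain ⟨v, hv3⟩ := exists_li3 hX
  have hline : IsLine K := by
    refine ⟨hK.inf, ?_, hK.gen, hK.closed⟩
    intro S hS T hT
    obtain ⟨g1, h1, rfl⟩ := h S hS
    obtain ⟨g2, h2, rfl⟩ := h T hT
    rw [← p8_ten_sub]
    apply qn_of_sq
    apply ten_sq
    rw [ContinuousLinearMap.sub_apply, h1, h2, sub_zero]
  obtain ⟨P, hP, R, hR, hPR⟩ := hK.inf.nontrivial
  obtain ⟨p, hp, rfl⟩ := h P hP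
  obtain ⟨r, hr, rfl⟩ := h R hR
  have hg0 : r - p ≠ 0 := by
    intro e
    apply hPR
    rw [sub_eq_zero.mp e]
  have hgx : (r - p) x = 0 := by
    rw [ContinuousLinearMap.sub_apply, hp, hr, sub_zero]
  have hm := IsLine.image (isGIso_trans (-ten x p)) hline
  have hml := tame_line hv3 hm hx hg0 hgx ⟨ten x p, hP, by
      show -ten x p + ten x p = 0
      rw [neg_add_cancel]⟩
    ⟨ten x r, hR, by
      show -ten x p + ten x r = ten x (r - p)
      rw [p8_ten_sub]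
      abel⟩ (by
      rintro _ ⟨V, hV, rfl⟩
      obtain ⟨g, hg, rfl⟩ := h V hV
      refine ⟨g - p, 0, ?_, ?_, map_zero _⟩
      · show -ten x p + ten x g = _
        rw [ten_zero_left, add_zero, p8_ten_sub]
        abel
      · rw [ContinuousLinearMap.sub_apply, hp, hg, sub_zero])
  refine ⟨p, r - p, hp, hgx, hg0, ?_⟩
  ext V
  constructor
  · intro hV
    have h1 : -ten x p + V ∈ rline 0 (ten x (r - p)) := by
      rw [← hml]; exact ⟨V, hV, rfl⟩
    obtain ⟨z, hz⟩ := h1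
    refine ⟨z, ?_⟩
    have h2 : 0 + z • ten x (r - p) = -ten x p + V := hz
    show ten x p + z • ten x (r - p) = V
    rw [zero_add] at h2
    rw [h2]; abel
  · rintro ⟨z, rfl⟩
    have h1 : z • ten x (r - p) ∈ rline 0 (ten x (r - p)) := ⟨z, by
      show 0 + z • ten x (r - p) = _
      rw [zero_add]⟩
    rw [← hml] at h1
    obtain ⟨V, hV, h2⟩ := h1
    have h3 : -ten x p + V = z • ten x (r - p) := h2
    show ten x p + z • ten x (r - p) ∈ K
    rw [← h3, add_neg_cancel_left]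
    exact hV

theorem p8_neg_smul (t : ℂ) (g : X →L[ℂ] ℂ) : (-t) • g = -(t • g) := by
  ext w
  show (-t) * g w = -(t * g w)
  ring

theorem p8_one_smul (g : X →L[ℂ] ℂ) : (1 : ℂ) • g = g := by
  ext w
  show (1 : ℂ) * g w = g w
  rw [one_mul]

theorem p8_scalar [CompleteSpace X] (hX : ¬ Module.Finite ℂ X)
    {φ : (X →L[ℂ] X) → (Y →L[ℂ] Y)} (h : IsPlus φ) {ε : (X →L[ℂ] X) → (X →L[ℂ] X)}
    (hε : IsSA ε) (hE : ∀ T, φ (-(ε T)) = -φ T) {x : X} (hx : x ≠ 0) (hε0 : ε 0 = 0)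
    {f : X →L[ℂ] ℂ} (hf : f ≠ 0) (hfx : f x = 0) :
    ∃ c : ℂ, c ≠ 0 ∧ ε (ten x f) = c • ten x f := by
  have hmem : φ (ten x f) ∈ φ '' rline 0 (ten x f) :=
    ⟨ten x f, ⟨1, by show 0 + (1 : ℂ) • ten x f = ten x f; rw [one_smul, zero_add]⟩, rfl⟩
  have h1 := neg_image hX h hx hf hfx hmem
  rw [← hE] at h1
  obtain ⟨V, ⟨z, hz⟩, hV⟩ := h1
  have h2 : V = -(ε (ten x f)) := h.bij.1 hV
  have h3 : 0 + z • ten x f = V := hz
  rw [zero_add, h2] at h3
  have h4 : ε (ten x f) = (-z) • ten x f := by rw [neg_smul, h3, neg_neg]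
  refine ⟨-z, ?_, h4⟩
  intro hz0
  rw [hz0, zero_smul, ← hε0] at h4
  have h5 := hε.bij.1 h4
  rw [ten_eq_zero_iff] at h5
  rcases h5 with h5 | h5
  · exact hx h5
  · exact hf h5

/-- `c (f + g) = c f` -/
theorem p8_indep [CompleteSpace X] (hX : ¬ Module.Finite ℂ X)
    {φ : (X →L[ℂ] X) → (Y →L[ℂ] Y)} (h : IsPlus φ) {ε : (X →L[ℂ] X) → (X →L[ℂ] X)}
    (hε : IsSA ε) (hE : ∀ T, φ (-(ε T)) = -φ T) {x : X} (hx : x ≠ 0) (hε0 : ε 0 = 0)
    {f g : X →L[ℂ] ℂ} (hfx : f x = 0) (hgx : g x = 0) (hg : g ≠ 0) (hfg : ∀ a : ℂ, f ≠ a • g)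
    {c : ℂ} (hc : ε (ten x f) = c • ten x f) : ε (ten x (f + g)) = c • ten x (f + g) := by
  obtain ⟨v, hv3⟩ := exists_li3 hX
  have hx0 : ∀ k : X →L[ℂ] ℂ, ten x k = 0 → k = 0 := by
    intro k hk
    rw [ten_eq_zero_iff] at hk
    rcases hk with hk | hk
    · exact absurd hk hx
    · exact hk
  have hne : ∀ t : ℂ, f + t • g ≠ 0 := by
    intro t ht
    apply hfg (-t)
    rw [p8_neg_smul]
    exact eq_neg_of_add_eq_zero_left ht
  have hx1 : ∀ t : ℂ, (f + t • g) x = 0 := by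
    intro t
    rw [ContinuousLinearMap.add_apply, ContinuousLinearMap.smul_apply, hfx, hgx, smul_zero,
      add_zero]
  have hcs : ∀ t : ℂ, ∃ c : ℂ, c ≠ 0 ∧ ε (ten x (f + t • g)) = c • ten x (f + t • g) :=
    fun t => p8_scalar hX h hε hE hx hε0 (hne t) (hx1 t)
  choose C hC0 hC using hcs
  have hten : ∀ t : ℂ, ten x f + t • ten x g = ten x (f + t • g) := by
    intro t; rw [ten_add_right', ten_smul_right]
  have hQ : IsQLine (ε '' rline (ten x f) (ten x g)) :=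
    hε.qline (IsLine.qline (isLine_rline hv3 hx hg hgx _))
  obtain ⟨p, q, hpx, hqx, hq, hK⟩ := qline_in_plane hX hQ hx (by
    rintro _ ⟨_, ⟨t, rfl⟩, rfl⟩
    refine ⟨C t • (f + t • g), ?_, ?_⟩
    · rw [ContinuousLinearMap.smul_apply, hx1 t, smul_zero]
    · show ε (ten x f + t • ten x g) = _
      rw [hten, hC, ten_smul_right])
  have hs : ∀ t : ℂ, ∃ s : ℂ, C t • (f + t • g) = p + s • q := by
    intro t
    have h1 : ε (ten x (f + t • g)) ∈ rline (ten x p) (ten x q) := by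
      rw [← hK]
      exact ⟨_, ⟨t, rfl⟩, by show ε (ten x f + t • ten x g) = _; rw [hten]⟩
    obtain ⟨s, hs⟩ := h1
    refine ⟨s, ?_⟩
    have h2 : ten x p + s • ten x q = ε (ten x (f + t • g)) := hs
    rw [hC, ← ten_smul_right, ← ten_smul_right, ← ten_add_right'] at h2
    have h3 : ten x (p + s • q - C t • (f + t • g)) = 0 := by
      rw [p8_ten_sub, h2, sub_self]
    exact (sub_eq_zero.mp (hx0 _ h3)).symm
  choose s hs using hs
  -- linear independence
  have hli : ∀ a b : ℂ, a • f + b • g = 0 → a = 0 ∧ b = 0 := by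
    intro a b hab
    have ha : a = 0 := by
      by_contra ha
      apply hfg (-(a⁻¹ * b))
      ext w
      have h1 : a * f w + b * g w = 0 := by
        have := congrArg (fun L : X →L[ℂ] ℂ => L w) hab
        exact this
      show f w = -(a⁻¹ * b) * g w
      have h2 : f w = a⁻¹ * (a * f w) := by rw [← mul_assoc, inv_mul_cancel₀ ha, one_mul]
      rw [h2]
      linear_combination a⁻¹ * h1
    refine ⟨ha, ?_⟩
    by_contra hb
    apply hg
    ext w
    have h1 : a * f w + b * g w = 0 := congrArg (fun L : X →L[ℂ] ℂ => L w) hab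
    rw [ha, zero_mul, zero_add] at h1
    rcases mul_eq_zero.mp h1 with h2 | h2
    · exact absurd h2 hb
    · exact h2
  have h0 := hs 0
  have h1 := hs 1
  rw [dual_zero_smul, add_zero] at h0
  rw [one_smul] at h1
  have h0w : ∀ w, C 0 * f w = p w + s 0 * q w := fun w =>
    congrArg (fun L : X →L[ℂ] ℂ => L w) h0
  have h1w : ∀ w, C 1 * (f w + g w) = p w + s 1 * q w := fun w =>
    congrArg (fun L : X →L[ℂ] ℂ => L w) h1
  have hq1 : ∀ w, (s 1 - s 0) * q w = (C 1 - C 0) * f w + C 1 * g w := by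
    intro w
    linear_combination h0w w - h1w w
  have hd : s 1 - s 0 ≠ 0 := by
    intro hd
    have h2 : (C 1 - C 0) • f + C 1 • g = 0 := by
      ext w
      have h3 := hq1 w
      rw [hd, zero_mul] at h3
      exact h3.symm
    exact hC0 1 (hli _ _ h2).2
  obtain ⟨d, hdd⟩ : ∃ d : ℂ, d = s 1 - s 0 := ⟨_, rfl⟩
  rw [← hdd] at hd
  have hgen : ∀ t : ℂ, (d * (C t - C 0) - (s t - s 0) * (C 1 - C 0)) • f +
      (d * (C t * t) - (s t - s 0) * C 1) • g = 0 := by
    intro t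
    ext w
    have h2 : C t * (f w + t * g w) = p w + s t * q w :=
      congrArg (fun L : X →L[ℂ] ℂ => L w) (hs t)
    have h3 := h0w w
    have h4 := hq1 w
    rw [← hdd] at h4
    show (d * (C t - C 0) - (s t - s 0) * (C 1 - C 0)) * f w +
      (d * (C t * t) - (s t - s 0) * C 1) * g w = 0
    linear_combination d * h2 - d * h3 + (s t - s 0) * h4
  have hgen1 : ∀ t : ℂ, d * (C t - C 0) = (s t - s 0) * (C 1 - C 0) ∧
      d * (C t * t) = (s t - s 0) * C 1 := by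
    intro t
    obtain ⟨e1, e2⟩ := hli _ _ (hgen t)
    exact ⟨sub_eq_zero.mp e1, sub_eq_zero.mp e2⟩
  have hfin : ∀ t : ℂ, C t * (C 1 - t * (C 1 - C 0)) = C 0 * C 1 := by
    intro t
    obtain ⟨e1, e2⟩ := hgen1 t
    have e3 : d * (C t * (C 1 - t * (C 1 - C 0)) - C 0 * C 1) = 0 := by
      linear_combination C 1 * e1 - (C 1 - C 0) * e2
    rcases mul_eq_zero.mp e3 with e4 | e4
    · exact absurd e4 hd
    · exact sub_eq_zero.mp e4
  have hC01 : C 1 = C 0 := by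
    by_contra hne1
    have e1 := hfin (C 1 / (C 1 - C 0))
    rw [div_mul_cancel₀ _ (sub_ne_zero.mpr hne1), sub_self, mul_zero] at e1
    rcases mul_eq_zero.mp e1.symm with e2 | e2
    · exact hC0 0 e2
    · exact hC0 1 e2
  have hf0 : f ≠ 0 := by
    intro h0
    apply hfg 0
    rw [h0, dual_zero_smul]
  have hcc : c = C 0 := by
    have e1 := hC 0
    rw [dual_zero_smul, add_zero, hc] at e1
    have e2 : (c - C 0) • ten x f = 0 := by rw [sub_smul, e1, sub_self]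
    rcases smul_eq_zero.mp e2 with e3 | e3
    · exact sub_eq_zero.mp e3
    · exact absurd (hx0 _ e3) hf0
  have h2 := hC 1
  rw [one_smul, hC01, ← hcc] at h2
  exact h2

theorem p8_const [CompleteSpace X] (hX : ¬ Module.Finite ℂ X)
    {φ : (X →L[ℂ] X) → (Y →L[ℂ] Y)} (h : IsPlus φ) {ε : (X →L[ℂ] X) → (X →L[ℂ] X)}
    (hε : IsSA ε) (hE : ∀ T, φ (-(ε T)) = -φ T) {x : X} (hx : x ≠ 0) (hε0 : ε 0 = 0)
    {f : X →L[ℂ] ℂ} (hfx : f x = 0) (hf : f ≠ 0) {a : ℂ} (ha : a ≠ 0) {c : ℂ}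
    (hc : ε (ten x f) = c • ten x f) : ε (ten x (a • f)) = c • ten x (a • f) := by
  obtain ⟨v, hv3⟩ := exists_li3 hX
  obtain ⟨g, hgx, hg, hfg⟩ : ∃ g : X →L[ℂ] ℂ, g x = 0 ∧ g ≠ 0 ∧ ∀ b : ℂ, f ≠ b • g := by
    obtain ⟨h1, h2, h1x, h2x, hli⟩ := two_dual hv3 hx
    have hn1 : h1 ≠ 0 := by
      have := hli.ne_zero 0
      simpa using this
    have hn2 : h2 ≠ 0 := by
      have := hli.ne_zero 1
      simpa using this
    by_cases hh : ∀ b : ℂ, f ≠ b • h1
    · exact ⟨h1, h1x, hn1, hh⟩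
    · push Not at hh
      obtain ⟨b, hb⟩ := hh
      refine ⟨h2, h2x, hn2, ?_⟩
      intro b' hb'
      have hb0 : b ≠ 0 := by
        rintro rfl
        apply hf
        rw [hb, dual_zero_smul]
      rw [LinearIndependent.pair_iff] at hli
      have := hli b (-b') (by rw [← hb, hb', p8_neg_smul, add_neg_cancel])
      exact hb0 this.1
  have hgf : ∀ b : ℂ, g ≠ b • f := by
    intro b hb
    have hb0 : b ≠ 0 := by
      rintro rfl
      apply hg
      rw [hb, dual_zero_smul]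
    apply hfg b⁻¹
    rw [hb, smul_smul, inv_mul_cancel₀ hb0, one_smul]
  have haf : a • f ≠ 0 := smul_ne_zero ha hf
  have hafx : (a • f) x = 0 := by rw [ContinuousLinearMap.smul_apply, hfx, smul_zero]
  have hfg' : ∀ b : ℂ, a • f ≠ b • g := by
    intro b hb
    apply hfg (a⁻¹ * b)
    rw [mul_smul, ← hb, smul_smul, inv_mul_cancel₀ ha, one_smul]
  have hgf' : ∀ b : ℂ, g ≠ b • (a • f) := by
    intro b hb
    apply hgf (b * a)
    rw [mul_smul, ← hb]
  obtain ⟨c1, hc10, hc1⟩ := p8_scalar hX h hε hE hx hε0 hg hgx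
  obtain ⟨c2, hc20, hc2⟩ := p8_scalar hX h hε hE hx hε0 haf hafx
  have canc : ∀ (k : X →L[ℂ] ℂ) (b b' : ℂ), k ≠ 0 → b • ten x k = b' • ten x k → b = b' := by
    intro k b b' hk hbb
    have e2 : (b - b') • ten x k = 0 := by rw [sub_smul, hbb, sub_self]
    rcases smul_eq_zero.mp e2 with e3 | e3
    · exact sub_eq_zero.mp e3
    · rw [ten_eq_zero_iff] at e3
      rcases e3 with e3 | e3
      · exact absurd e3 hx
      · exact absurd e3 hk
  have hsum : ∀ k : X →L[ℂ] ℂ, (∀ b : ℂ, k ≠ b • g) → k + g ≠ 0 := by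
    intro k hk e
    apply hk (-1)
    rw [p8_neg_smul, p8_one_smul]
    exact eq_neg_of_add_eq_zero_left e
  -- `c = c1`
  have i1 := p8_indep hX h hε hE hx hε0 hfx hgx hg hfg hc
  have i2 := p8_indep hX h hε hE hx hε0 hgx hfx hf hgf hc1
  rw [add_comm g f, i1] at i2
  have hcc1 : c = c1 := canc _ _ _ (hsum f hfg) i2
  have i3 := p8_indep hX h hε hE hx hε0 hafx hgx hg hfg' hc2
  have i4 := p8_indep hX h hε hE hx hε0 hgx hafx haf hgf' hc1
  rw [add_comm g (a • f), i3] at i4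
  have hcc2 : c2 = c1 := canc _ _ _ (hsum _ hfg') i4
  rw [hc2, hcc2, hcc1]

/-- Proof. Let `x ≠ 0`. By `neg_image`, for `f ≠ 0`, `f x = 0`: `ε (ten x f) ∈ rline 0 (ten x f)`, that is,
`ε (ten x f) = c f • ten x f` with a scalar `c f ≠ 0` (`ε 0 = 0`, injective). Let `f, g` be linearly
independent functionals vanishing at `x`. The line `{ten x f + t • ten x g}` is mapped by `ε` onto a
quasi-line inside `{ten x h : h x = 0}`, which is a rank one line by `qline_in_plane`; in the coordinates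
of `f, g` it is an affine line `α a + β b = γ`, (α, β) ≠ 0, in the plane, and contains the points
`(c t, t c t)`, `c t = c (f + t g) ≠ 0`: `c t * (α + β t) = γ`. If `γ = 0` then `α + β t = 0` for all `t`,
impossible. So `α + β t ≠ 0` for all `t`, `β = 0` and `c t = γ / α` does not depend on `t`:
`c (f + g) = c f`, and by symmetry `= c g`. So `c` is constant on `{f ≠ 0 : f x = 0}` (dimension `≥ 2`),
in particular `c (a • f) = c f`. Now `u = ten x f`, `ε (-u) = -c u`, and `ε (-(ε (-u))) = u` (apply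
`hE` twice and injectivity of `φ`) gives `c ^ 2 = 1`. If `c = -1` then `φ u = -φ u`, `φ u = 0 = φ 0`,
`u = 0`, contradiction. -/
theorem sa_fix [CompleteSpace X] (hX : ¬ Module.Finite ℂ X)
    {φ : (X →L[ℂ] X) → (Y →L[ℂ] Y)} (h : IsPlus φ) {ε : (X →L[ℂ] X) → (X →L[ℂ] X)}
    (hε : IsSA ε) (hE : ∀ T, φ (-(ε T)) = -φ T) {x : X} {f : X →L[ℂ] ℂ} (hfx : f x = 0) :
    ε (ten x f) = ten x f := by
  obtain ⟨v, hv3⟩ := exists_li3 hX
  have hε0 : ε 0 = 0 := by
    have h1 := hE 0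
    rw [h.zero, neg_zero] at h1
    have h2 : φ (-(ε 0)) = φ 0 := by rw [h1, h.zero]
    have h3 := h.bij.1 h2
    rwa [neg_eq_zero] at h3
  by_cases hx : x = 0
  · rw [hx, ten_zero_left, hε0]
  by_cases hf : f = 0
  · rw [hf, ten_zero_right, hε0]
  have key := p8_const hX h hε hE hx hε0 hfx
  obtain ⟨c, hc0, hc⟩ := p8_scalar hX h hε hE hx hε0 hf hfx
  have hscal : ∀ a : ℂ, a ≠ 0 → ε (ten x (a • f)) = c • ten x (a • f) := by
    intro a ha
    exact key hf ha hc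
  have hu0 : ten x f ≠ 0 := by
    rw [Ne, ten_eq_zero_iff, not_or]; exact ⟨hx, hf⟩
  -- the square of `c` is `1`
  have e1 : φ (-(c • ten x f)) = -φ (ten x f) := by rw [← hE, hc]
  have e2 : φ (-(ε (ten x ((-c) • f)))) = -φ (ten x ((-c) • f)) := hE _
  have e3 : ten x ((-c) • f) = -(c • ten x f) := by rw [ten_smul_right, neg_smul]
  rw [hscal _ (neg_ne_zero.mpr hc0), e3, e1, neg_neg] at e2
  have e4 := h.bij.1 e2
  have e5 : (c * c) • ten x f = (1 : ℂ) • ten x f := by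
    rw [one_smul, mul_smul]
    calc c • c • ten x f = -(c • -(c • ten x f)) := by rw [smul_neg, neg_neg]
      _ = ten x f := e4
  have e6 : c * c = 1 := by
    by_contra hne
    have h1 : (c * c - 1) • ten x f = 0 := by rw [sub_smul, e5, sub_self]
    rcases smul_eq_zero.mp h1 with h2 | h2
    · exact hne (sub_eq_zero.mp h2)
    · exact hu0 h2
  rcases mul_self_eq_one_iff.mp e6 with h1 | h1
  · rw [hc, h1, one_smul]
  · exfalso
    rw [h1, neg_one_smul, neg_neg] at e1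
    have h2 : (2 : ℂ) • φ (ten x f) = 0 := by
      rw [two_smul]
      nth_rewrite 1 [e1]
      rw [neg_add_cancel]
    rcases smul_eq_zero.mp h2 with h3 | h3
    · norm_num at h3
    · apply hu0
      apply h.bij.1
      rw [h3, h.zero]

end Pool.Agent.H.MP_bb4c62_an.helper5.PL
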