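import Pool.Agent.H.MP_bb4c62_an.helper6.NPlus

/-!
The plus sign in infinite dimension: definitions.

`QN T` means that `T` is quasinilpotent, `N1 T` that `T = x ⊗ f` with `f x = 0`.
-/

namespace Pool.Agent.H.MP_bb4c62_an.helper5.PL

open Pool.Agent.H.MP_bb4c62_an.helper6.NL
open Pool.Agent.H.MP_bb4c62_an.helper6.Perturb
open Pool.Agent.H.MP_bb4c62_an.helper6.Gadgets

variable {X : Type*} [NormedAddCommGroup X] [NormedSpace ℂ X]
variable {Y : Type*} [NormedAddCommGroup Y] [NormedSpace ℂ Y]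

/-- quasi-lines: infinite closed sets which are generated by any three of their points
(lines which need not be cliques) -/
structure IsQLine (m : Set (X →L[ℂ] X)) : Prop where
  inf : m.Infinite
  gen : ∀ T a b c, a ∈ m → b ∈ m → c ∈ m → a ≠ b → a ≠ c → b ≠ c →
    QN (T - a) → QN (T - b) → QN (T - c) → ∀ s ∈ m, QN (T - s)
  closed : ∀ V, (∀ T, (∀ s ∈ m, QN (T - s)) → QN (V - T)) → V ∈ m

/-- plus-lines: quasi-lines through `0` all of whose sums are quasinilpotent -/
structure IsPLine (m : Set (X →L[ℂ] X)) : Prop where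
  qline : IsQLine m
  zero : (0 : X →L[ℂ] X) ∈ m
  plus : ∀ s ∈ m, ∀ t ∈ m, QN (s + t)

/-- bijections which preserve quasinilpotent sums in both directions -/
structure IsPlus (φ : (X →L[ℂ] X) → (Y →L[ℂ] Y)) : Prop where
  bij : Function.Bijective φ
  qn : ∀ T S, QN (φ T + φ S) ↔ QN (T + S)

/-- the operators `S` for which `S + w` is quasinilpotent for all points `w` of all plus-lines
through `N` -/
def CC (N : X →L[ℂ] X) : Set (X →L[ℂ] X) :=
  {S | ∀ K : Set (X →L[ℂ] X), IsPLine K → N ∈ K → ∀ w ∈ K, QN (S + w)}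

/-- the operators `x ⊗ θ + q ⊗ f` with `θ x = 0`, `f q = 0` -/
def Tame (x : X) (f : X →L[ℂ] ℂ) (V : X →L[ℂ] X) : Prop :=
  ∃ (θ : X →L[ℂ] ℂ) (q : X), V = ten x θ + ten q f ∧ θ x = 0 ∧ f q = 0

/-- bijections which are self-adjoint for the relation `T - S` quasinilpotent -/
structure IsSA (ε : (X →L[ℂ] X) → (X →L[ℂ] X)) : Prop where
  bij : Function.Bijective ε
  qn : ∀ T S, QN (ε T - S) ↔ QN (T - ε S)

end Pool.Agent.H.MP_bb4c62_an.helper5.PL
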